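import Pool.Agent.Helper51.RP.Defs

/-!
# Project RP (MP_fc6b1e_nt), part II: duality by counting, for all primes `p`

If the twisted Selmer group contains an element which is not a `p`-th power then there is an additive
ray class character `ψ` of `M` of order `p` with the properties of the dual Selmer group. The local
conditions enter only through an abstract system `v` (`LSys`). `S.unit M` is the group of `S`-units of
Mathlib (`Set.unit`).
-/

namespace Pool.Agent.Helper51.RP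

open NumberField Polynomial Module IsDedekindDomain TensorProduct Pool.Agent.Helper51.SigLeo

/-- **S_SUB.** The local conditions define a subgroup of `Mˣ` which contains the `p`-th powers and is
stable under `δ`.

PROOF. `v(·, w)` is additive, so `v x w = 0` defines a subgroup, and `v (x^p) w = p v x w = 0`.
`LocSig`: if `SigSmall N (x y^p)` and `SigSmall N (x' y'^p)` then `SigSmall N (x x' (y y')^p)` (norm
multiplicative, `L` additive, ultrametric inequality), inverses and `p`-th powers are clear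
(`L 1 = 0`, `x^p (x⁻¹)^p = 1`). Stability under `δ`: for `w ∈ S` let `w'` be the prime with
`w'.valuation y = w.valuation (δ y)` (the comap of `w` under the automorphism of `𝓞_M`); it is
conjugate to `w`, so it is in `S`, and `v (δ x) w = v x w' = 0` by `equiv`. For `τ ∈ above T`, also
`τ ∘ δ ∈ above T`, and `SigSmall N (δ x (δ y)^p)` follows from `SigSmall N (x y^p)`. -/
def S_SUB : Prop :=
  ∀ (p : ℕ) [Fact p.Prime] (k : Type) [NormedField k] [IsUltrametricDist k] (L : IwasawaLog p k)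
    (K M : Type) [Field K] [NumberField K] [Field M] [NumberField M] [Algebra K M]
    (δ : M ≃ₐ[K] M) (T : Set (K →+* k)) (S : Set (HeightOneSpectrum (𝓞 M))) (𝔪₀ : Ideal (𝓞 M))
    (v : Mˣ → HeightOneSpectrum (𝓞 M) → ZMod p), LSys δ T S 𝔪₀ v →
  ∃ G : Subgroup Mˣ, (∀ x, x ∈ G ↔ LSat L (above T : Set (M →+* k)) S v x) ∧
    (∀ x, Pw p x → x ∈ G) ∧
    ∀ x ∈ G, Units.map ((δ : M →+* M) : M →* M) x ∈ G

/-- **S_SEX** (the same statement as `RS.S_SEX`; the definitions of `ordv` and `ConjP` agree). Let `M/K`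
be an extension of number fields and `Z` a finite set of primes of `M`. There is a finite set `S ⊇ Z`
of primes, stable under `Gal(M/K)`, such that every divisor is principal outside `S`.

PROOF. The class group of `M` is finite; let `I_1, ..., I_h` be nonzero integral ideals representing
its classes. Let `S` be the set of all the conjugates (under the finite group `Gal(M/K)`) of the
primes in `Z` and the primes dividing `I_1 ⋯ I_h`. For a finitely supported
`n : primes → ℤ` the fractional ideal `J = ∏ w^(n w)` is in the class of some `I_i`: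
`J = x I_i`, `x ∈ Mˣ`; so `ord_w(x) = n w` for `w ∉ S`. -/
def S_SEX : Prop :=
  ∀ (K M : Type) [Field K] [NumberField K] [Field M] [NumberField M] [Algebra K M]
    (Z : Set (HeightOneSpectrum (𝓞 M))), Z.Finite →
  ∃ S : Set (HeightOneSpectrum (𝓞 M)), S.Finite ∧ Z ⊆ S ∧
    (∀ w ∈ S, ∀ v, ConjP K v w → v ∈ S) ∧
    ∀ n : HeightOneSpectrum (𝓞 M) →₀ ℤ, ∃ x : Mˣ, ∀ w ∉ S, ordv w (x : M) = n w

/-- **S_LEM** (counting the `P`-part of `A/pA`). Let `A` be a finitely generated abelian group, `δ`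
an endomorphism with `δ^m = 1` which acts as the integer `i` on the elements of `p`-power order,
`P(i) ≠ 0`, `ζ'` a primitive `m`-th root of unity in `ℂ` and `μ` the dimension of the `ζ'`-eigenspace
of `δ` in `ℂ ⊗ A`. A set of elements `x` of `A` with `P(δ) x ∈ pA` which are pairwise incongruent
modulo `pA` has at most `p^(deg P · μ)` elements.

PROOF. Let `A' = A/torsion`, free of rank `r`, `D` the matrix of `δ`, `P~ = ∑ (coeff P j).val X^j`.
(1) If `x ∈ A`, `P~(δ) x ∈ pA` and the image of `x` in `A'/pA'` is zero then `x ∈ pA`: `x = p b + τ`,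
`τ` torsion, and we may suppose that `τ` has `p`-power order (an element of order prime to `p` is in
`pA`); `δ τ = i τ`, so `P~(δ) x` is congruent to `P~(i) τ` modulo `pA`, and the integer `P~(i)` is
prime to `p`; with `c P~(i) ≡ 1` modulo the order of `τ`: `τ = c P~(i) τ ∈ pA`. Hence the elements of
the given set have distinct images in `{c ∈ A'/pA' : P(D̄) c = 0} = ker P(D̄)`, `D̄ = D mod p`, acting
on `F_p^r`. (Apply this to the differences.)
(2) Let `c(X) = charpoly D ∈ ℤ[X]`, monic. All its complex roots are `m`-th roots of unity, so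
`c = ∏_{e ∣ m} Φ_e^(μ_e)` (cyclotomic polynomials: the minimal polynomial over `ℚ` of each root of `c`
is a `Φ_e`, `e ∣ m`; Gauss). `D` is diagonalisable over `ℂ` (`D^m = 1`), so the dimension `μ` of the
`ζ'`-eigenspace (in `ℂ^r = ℂ ⊗ A' = ℂ ⊗ A`) is the multiplicity of `ζ'` in `c`, which is `μ_m`.
(3) Modulo `p`: `X^m - 1` is squarefree modulo `p` (`p ∤ m`) and is the product of the `Φ_e`, `e ∣ m`.
`P` divides `X^m - 1`, and it is coprime to `X^e - 1` hence to `Φ_e` for `e ∣ m`, `e < m`; so `P`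
divides `Φ_m mod p` exactly once, and the multiplicity of `P` in `c mod p = charpoly D̄` is `μ_m`.
Since `D̄^m = 1` and `X^m - 1` is squarefree, `ker P(D̄)` is the whole `P`-primary component of
`F_p^r`, which has dimension `deg P` times the multiplicity of `P` in the characteristic polynomial.
So `dim ker P(D̄) = deg P · μ`. -/
def S_LEM : Prop :=
  ∀ (p : ℕ) [Fact p.Prime] (k : Type) [NormedField k] [NormedAlgebra ℚ_[p] k] (m : ℕ) (ζ : k)
    (Φ : ℤ_[p][X]) (P : (ZMod p)[X]), PhiData p m ζ Φ P →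
  ∀ (A : Type) [AddCommGroup A] [Module.Finite ℤ A] (δ : A →+ A) (i : ℕ),
    (∀ x, δ^[m] x = x) → (∀ (x : A) (n : ℕ), p ^ n • x = 0 → δ x = i • x) →
    P.eval (i : ZMod p) ≠ 0 →
  ∀ (ζ' : ℂ), IsPrimitiveRoot ζ' m → ∀ F : Finset A,
    (∀ x ∈ F, ∃ b, ∑ j ∈ P.support, (P.coeff j).val • δ^[j] x = p • b) →
    (∀ x ∈ F, ∀ y ∈ F, x ≠ y → ¬ ∃ b, x = y + p • b) →
    F.card ≤ p ^ (P.natDegree *
      finrank ℂ (LinearMap.ker ((extEnd δ : (ℂ ⊗[ℤ] A) →ₗ[ℂ] (ℂ ⊗[ℤ] A)) - ζ' • LinearMap.id)))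

/-- **S_EIG** (the eigenspace of the `S`-units; the same statement as `RS.S_EIG`, the definitions
agree). Let `K` be totally complex of degree `2d`, `M/K` cyclic of degree `m` with generator `δ`, `S` a
finite stable set of primes of `M` which contains exactly `m s₀` primes with trivial decomposition
group. Then the group `A` of `S`-units is finitely generated and the `ζ'`-eigenspace of `δ` in
`ℂ ⊗ A` has dimension at most `d + s₀`, for a primitive `m`-th root of unity `ζ' ∈ ℂ`.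

PROOF: see `RS.S_EIG`. -/
def S_EIG : Prop :=
  ∀ (K M : Type) [Field K] [NumberField K] [IsTotallyComplex K] [Field M] [NumberField M]
    [Algebra K M] [IsGalois K M] (m d s₀ : ℕ) (δ : M ≃ₐ[K] M), orderOf δ = m → finrank K M = m →
    finrank ℚ K = 2 * d → 0 < m →
  ∀ S : Set (HeightOneSpectrum (𝓞 M)), S.Finite → (∀ w ∈ S, ∀ v, ConjP K v w → v ∈ S) →
    {w ∈ S | FreeP K w}.ncard = m * s₀ →
  ∀ ζ' : ℂ, IsPrimitiveRoot ζ' m →
  ∃ D : Additive (S.unit M) →+ Additive (S.unit M),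
    (∀ x : S.unit M, (((D (Additive.ofMul x)).toMul : S.unit M) : Mˣ) =
      Units.map ((δ : M →+* M) : M →* M) (x : Mˣ)) ∧
    Module.Finite ℤ (Additive (S.unit M)) ∧
    finrank ℂ (LinearMap.ker ((extEnd D : (ℂ ⊗[ℤ] Additive (S.unit M)) →ₗ[ℂ]
      (ℂ ⊗[ℤ] Additive (S.unit M))) - ζ' • LinearMap.id)) ≤ d + s₀

/-- **S_UPB** (upper bound for the `S`-units). In the situation of `S_EIG` and `PhiData`, if `δ`
satisfies `TorOK`, a set of `S`-units `x` with `P(δ) x` a `p`-th power in `Mˣ`, pairwise incongruent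
modulo `p`-th powers of `Mˣ`, has at most `p^(deg P (d + s₀))` elements.

PROOF. Apply `S_LEM` to `A = S.unit M` with `D` of `S_EIG` (`ℂ` contains a primitive `m`-th root of
unity). `D^m = 1` as `δ^m = 1`. Elements of `p`-power order are roots of unity of `p`-power order in
`M`; `TorOK` gives the integer `i`. If an `S`-unit is the `p`-th power of `y ∈ Mˣ` then `y` is an
`S`-unit. -/
def S_UPB : Prop :=
  ∀ (p : ℕ) [Fact p.Prime] (k : Type) [NormedField k] [NormedAlgebra ℚ_[p] k] (K M : Type)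
    [Field K] [NumberField K] [IsTotallyComplex K] [Field M] [NumberField M] [Algebra K M]
    [IsGalois K M] (m d s₀ : ℕ) (δ : M ≃ₐ[K] M) (ζ : k) (Φ : ℤ_[p][X]) (P : (ZMod p)[X]),
    PhiData p m ζ Φ P → orderOf δ = m → finrank K M = m → finrank ℚ K = 2 * d → TorOK P δ →
  ∀ S : Set (HeightOneSpectrum (𝓞 M)), S.Finite → (∀ w ∈ S, ∀ v, ConjP K v w → v ∈ S) →
    {w ∈ S | FreeP K w}.ncard = m * s₀ →
  ∀ F : Finset Mˣ, (∀ x ∈ F, x ∈ S.unit M ∧ Pw p (pol P δ x)) →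
    (∀ x ∈ F, ∀ y ∈ F, x ≠ y → ¬ Pw p (x / y)) → F.card ≤ p ^ (P.natDegree * (d + s₀))

/-- **S_BIN.** If `‖τ z - 1‖ ≤ p^(-3)` for all `τ ∈ T`, then `LocSig L T z`.

PROOF. Newton iteration for `z^(-1/p)`: `y_0 = 1`, `y_{j+1} = y_j (1 + (1 - z y_j^p)/p) ∈ M`. Put
`e = 1 - z y_j^p`, `e' = 1 - z y_{j+1}^p`; `z y_{j+1}^p = (1 - e)(1 + e/p)^p = (1 - e)(1 + e + r)`,
`r = ∑_{i=2}^p C(p,i) (e/p)^i`, `e' = e² - r + e r`. Let `τ ∈ T` and suppose `‖τ e‖ ≤ p^(-3)`. For
`2 ≤ i < p` the term of `r` has norm `≤ p^(-1) (p ‖τ e‖)^i ≤ p ‖τ e‖² `, for `i = p` it is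
`(p ‖τ e‖)^p ≤ p² ‖τ e‖²` (as `p ‖τ e‖ ≤ 1`, `p ≥ 2`). So `‖τ e'‖ ≤ p² ‖τ e‖² ≤ ‖τ e‖/p`; thus
`‖τ(z y_j^p) - 1‖ ≤ p^(-j-3)`, in particular `τ y_j ≠ 0`, `y_j ≠ 0` if `T` is not empty (if `T` is
empty there is nothing to prove). If `‖r - 1‖ ≤ p^(-n)`, `n ≥ 1`, then `‖r‖ = 1` and
`‖L r‖ ≤ p^(-n)` (each term of the series has norm `‖r - 1‖^(i+1)/‖i+1‖ ≤ p^(-n(i+1)) (i+1) ≤
p^(-n)`, since `i + 1 ≤ p^i`). -/
def S_BIN : Prop :=
  ∀ (p : ℕ) [Fact p.Prime] (k : Type) [NormedField k] [NormedAlgebra ℚ_[p] k]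
    [IsUltrametricDist k] (L : IwasawaLog p k) (M : Type) [Field M] [NumberField M]
    (T : Set (M →+* k)) (z : Mˣ), (∀ τ ∈ T, ‖τ (z : M) - 1‖ ≤ (1 / p : ℝ) ^ 3) → LocSig L T z

/-- **S_LAT** (the `P`-part of a lattice modulo `p`). `Λ` is a finitely generated free `ℤ_p`-module with
an endomorphism `D`, `D^m = 1`; `j : Λ → V` is an additive map to a finite dimensional `k`-vector
space with endomorphism `D'`, compatible with the actions and with `ℤ_p ⊆ k`, and `j(Λ)` spans `V`.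
If the `ζ`-eigenspace of `D'` has dimension at least `d`, there are `p^(deg P · d)` elements `x` of
`Λ` with `P(D) x ∈ pΛ`, pairwise incongruent modulo `pΛ`.

PROOF. Let `r` be the rank of `Λ`, and `c ∈ ℤ_p[X]` the characteristic polynomial of `D`. The
`k`-linear extension `k ⊗ Λ → V` of `j` is surjective and commutes with `D`, `D'`; the projector
`(1/m) ∑_{i<m} ζ^(-i) D^i` maps onto the `ζ`-eigenspace on both sides (`D'^m = 1` on `V` because
`V` is spanned by `j(Λ)`), so the `ζ`-eigenspace of `D` in `k ⊗ Λ = k^r` has dimension `μ ≥ d`, and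
`(X - ζ)^μ ∣ c`. `Φ` is irreducible (it is monic and its reduction `P` is irreducible), it is the
minimal polynomial of `ζ` over `ℤ_p`, and it is separable; so `Φ^μ ∣ c` in `ℤ_p[X]`: induction: if
`c = Φ^i c'` with `i < μ`, `c'(ζ) = 0` since `ζ` is a simple root of `Φ`, so `Φ ∣ c'`. Modulo `p`,
`P^μ ∣ c̄ = charpoly D̄`, where `D̄` acts on `Λ/pΛ = F_p^r`. Since `D̄^m = 1` and `X^m - 1` is
squarefree modulo `p`, `ker P(D̄)` is the `P`-primary component of `F_p^r`; its dimension is `deg P`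
times the multiplicity of `P` in `c̄`, so it is `≥ deg P · μ ≥ deg P · d`. Take a subspace of
dimension `deg P · d` of `ker P(D̄)` and lift its elements to `Λ`. -/
def S_LAT : Prop :=
  ∀ (p : ℕ) [Fact p.Prime] (k : Type) [NormedField k] [NormedAlgebra ℚ_[p] k] (m : ℕ) (ζ : k)
    (Φ : ℤ_[p][X]) (P : (ZMod p)[X]), PhiData p m ζ Φ P →
  ∀ (Λ : Type) [AddCommGroup Λ] [Module ℤ_[p] Λ] [Module.Finite ℤ_[p] Λ] [Module.Free ℤ_[p] Λ]
    (D : Λ →ₗ[ℤ_[p]] Λ), (∀ x, D^[m] x = x) →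
  ∀ (V : Type) [AddCommGroup V] [Module k V] [FiniteDimensional k V] (D' : V →ₗ[k] V)
    (j : Λ →+ V), (∀ x, j (D x) = D' (j x)) →
    (∀ (c : ℤ_[p]) (x : Λ), j (c • x) = algebraMap ℚ_[p] k (c : ℚ_[p]) • j x) →
    Submodule.span k (Set.range j) = ⊤ →
  ∀ d : ℕ, d ≤ finrank k (LinearMap.ker (D' - ζ • LinearMap.id)) →
  ∃ F : Finset Λ, F.card = p ^ (P.natDegree * d) ∧
    (∀ x ∈ F, ∃ b, ∑ i ∈ P.support, (P.coeff i).val • D^[i] x = (p : ℤ_[p]) • b) ∧
    ∀ x ∈ F, ∀ y ∈ F, x ≠ y → ¬ ∃ b, x = y + (p : ℤ_[p]) • b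

/-- **S_SIG** (units at the places of `T`). Let `d = |T|`. There are `p^(deg P · d)` elements `x` of
`Mˣ` which are units at all places above `T`, with `LocSig (P(δ) x)`, and such that no quotient of
two distinct ones satisfies `LocSig`.

PROOF. `T' = above T` is a finite set of `m d` embeddings of `M` in `k`: every embedding of `K` in `k`
has exactly `m = [M : K]` extensions to `M` (there is an embedding of the algebraic closure of `ℚ` in
`k`, so all the embeddings of number fields in `k` factor through it), and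
`Gal(M/K) = ⟨δ⟩` permutes them freely: `τ ∘ δ^i = τ` implies `δ^i = 1`.
Let `V = k^T'` and `D' : V → V`, `(D' f)(τ) = f(τ ∘ δ)`; the `ζ`-eigenspace of `D'` has dimension
`d` (one free choice on each of the `d` orbits of length `m`, `ζ^m = 1`).
Let `X = {x ∈ Mˣ : ‖τ x‖ = 1 for all τ ∈ T'}` and `ℓ : X → V`, `ℓ(x) = (L(τ x))_τ`;
`ℓ(δ x) = D' ℓ(x)`. Let `Λ` be the `ℤ_p`-submodule of `V` spanned by `ℓ(X)`.

(1) `Λ` is finitely generated over `ℤ_p`. Let `W` be the `ℚ_p`-span in `V` of all the vectors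
`(τ b)_{τ ∈ T'}`, `b ∈ M`; it is finite dimensional, hence closed in `V`. For `x ∈ X`: there is
`q ≥ 1`, the same for all `x`, with `‖τ(x^q) - 1‖ ≤ p^(-1)` for all `τ ∈ T'`: the prime ideals
`𝔓_τ = {b ∈ 𝓞_M : ‖τ b‖ < 1}` contain `p`; write `x = α/β` with `α, β ∈ 𝓞_M` outside of all the
`𝔓_τ` (possible because `x` is a unit at these primes: `M` is the localisation; choose `β` by
approximation, or use the localisation of `𝓞_M` at the complement of the finite union of the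
`𝔓_τ`, a semilocal principal ideal domain); take for `q` the order of the unit group of the finite
ring `𝓞_M/J`, `J = ∏ 𝔓^n` over the `𝔓_τ` with `n` so large that `J ∋ b` implies `‖τ b‖ ≤ 1/p`.
So `ℓ(x) = (1/q) ℓ(x^q)`, and `ℓ(x^q)` is the limit of the partial sums
`∑_{i ≤ n} (-1)^i (τ(x^q - 1))^(i+1)/(i+1)`, elements of `W`: `ℓ(X) ⊆ W`; and
`‖ℓ(x)‖ ≤ ‖q‖^(-1)` is bounded. So `Λ` is contained in a bounded `ℤ_p`-submodule of the finite
dimensional `ℚ_p`-space `W`, which is contained in a finitely generated one; `ℤ_p` is Noetherian, so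
`Λ` is finitely generated, and free (torsion free). It is compact, hence closed in `V`, and so is
`pΛ`.

(2) `Λ` spans `V` over `k`. Let `b_1, ..., b_{md} ∈ 𝓞_M` be such that the matrix
`(τ b_i)_{τ ∈ T', i}` is invertible (the `[M:ℚ]` embeddings are linearly independent functions on
`𝓞_M`, so the matrix `(τ b)` has rank `|T'|`). For `n` large `1 + p^n b_i ∈ X` and
`‖L(τ(1 + p^n b_i)) - p^n τ b_i‖ ≤ p^(-2n+1)` (terms `(p^n τ b)^(j+1)/(j+1)`, `j ≥ 1`), so
`det(L(τ(1 + p^n b_i))) = p^(n m d) (det(τ b_i) + error)`, error of norm `≤ p^(-n+1)`: not zero for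
`n` large.

(3) For `x ∈ X`: `LocSig L T' x ↔ ℓ(x) ∈ pΛ`. If `ℓ(x) = p ∑ c_i ℓ(x_i)`, `c_i ∈ ℤ_p`, `x_i ∈ X`,
choose integers `n_i ≡ c_i mod p^N'`: `ℓ(x (∏ x_i^(-n_i))^p) = p ∑ (c_i - n_i) ℓ(x_i)` is as small as
we want. Conversely let `y_N ∈ Mˣ` with `SigSmall N (x y_N^p)`; `‖τ(y_N)‖^p = 1`, so `y_N ∈ X`, and
`ℓ(x) = ℓ(x y_N^p) - p ℓ(y_N)` is the limit of `-p ℓ(y_N) ∈ pΛ`, a closed set. (Same for quotients
`x/y`, `x, y ∈ X`.)

(4) `Λ/pΛ` is the image of `ℓ(X)`: `Λ` is spanned by the group `ℓ(X)`, and modulo `p` the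
coefficients are integers.

Apply `S_LAT` (with `j` the inclusion, `D` the restriction of `D'`: `D^m = 1`): there are
`p^(deg P · d)` elements `v` of `Λ`, pairwise incongruent mod `pΛ`, `P(D) v ∈ pΛ`. By (4) choose
`x ∈ X` with `ℓ(x) ≡ v mod pΛ`; `ℓ(P(δ) x) = P~(D') ℓ(x) ∈ pΛ`, so by (3) `LocSig (P(δ) x)`, and the
quotients of distinct elements do not satisfy `LocSig`. -/
def S_SIG : Prop :=
  ∀ (p : ℕ) [Fact p.Prime] (k : Type) [NormedField k] [NormedAlgebra ℚ_[p] k]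
    [IsUltrametricDist k] [CompleteSpace k], Nonempty (AlgebraicClosure ℚ →+* k) →
  ∀ (L : IwasawaLog p k) (K M : Type) [Field K] [NumberField K]
    [Field M] [NumberField M] [Algebra K M] [IsGalois K M] (m : ℕ)
    (δ : M ≃ₐ[K] M) (ζ : k) (Φ : ℤ_[p][X]) (P : (ZMod p)[X]), PhiData p m ζ Φ P →
    orderOf δ = m → finrank K M = m →
  ∀ T : Set (K →+* k), PlaceClosed T →
  ∃ F : Finset Mˣ, F.card = p ^ (P.natDegree * T.ncard) ∧
    (∀ x ∈ F, ∀ τ ∈ (above T : Set (M →+* k)), ‖τ (x : M)‖ = 1) ∧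
    (∀ x ∈ F, LocSig L (above T : Set (M →+* k)) (pol P δ x)) ∧
    ∀ x ∈ F, ∀ y ∈ F, x ≠ y → ¬ LocSig L (above T : Set (M →+* k)) (x / y)

/-- **S_PRM** (permutation modules modulo `p`). Let `σ` be a permutation of a finite set `Y` with
`σ^m = 1` and at least `m s₀` points in orbits of length `m`. There are at least `p^(deg P · s₀)`
functions `c : Y → ZMod p` with `∑_j coeff P j · c(σ^j y) = 0` for all `y`.

PROOF. There are at least `s₀` orbits of length `m`; choose one point in each of `s₀` of them,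
`y_1, ..., y_{s₀}`. Let `Q = (X^m - 1)/P ∈ F_p[X]`. For `h` of degree `< deg P` the polynomial
`h Q` has degree `< m`; write `h Q = ∑_{i<m} q_i X^i`; `P h Q = h (X^m - 1)`, so in
`F_p[X]/(X^m - 1)` the product `P · (∑ q_i X^i)` is zero: `∑_j coeff P j · q_{(i - j) mod m} = 0` for
all `i`. For `(h_1, ..., h_{s₀})` define `c(σ^(-i) y_l) = q_i(h_l)` and `c = 0` on the other orbits.
Then `∑_j coeff P j · c(σ^j σ^(-i) y_l) = ∑_j coeff P j · q_{(i - j) mod m} = 0`. Different `(h_l)` give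
different `c`, and there are `p^(deg P · s₀)` of them. -/
def S_PRM : Prop :=
  ∀ (p : ℕ) [Fact p.Prime] (k : Type) [NormedField k] [NormedAlgebra ℚ_[p] k] (m : ℕ) (ζ : k)
    (Φ : ℤ_[p][X]) (P : (ZMod p)[X]), PhiData p m ζ Φ P →
  ∀ (Y : Type) [Finite Y] (σ : Equiv.Perm Y) (s₀ : ℕ), σ ^ m = 1 →
    m * s₀ ≤ {y : Y | ∀ i, 0 < i → i < m → (σ ^ i) y ≠ y}.ncard →
  ∃ F : Finset (Y → ZMod p), F.card = p ^ (P.natDegree * s₀) ∧
    ∀ c ∈ F, ∀ y, ∑ j ∈ P.support, P.coeff j * c ((σ ^ j) y) = 0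

/-- **S_LOB** (lower bound for the local conditions). There are `p^(deg P (|T| + s₀))` elements `x` of
`Mˣ` such that `P(δ) x` satisfies the local conditions, pairwise incongruent modulo the group `G` of
the local conditions.

PROOF. Let `F₁` be the set of `S_SIG` (`|F₁| = p^(deg P · |T|)`), `F₂` the set of `S_PRM` for `Y = S`,
`σ` the permutation `w ↦ δ⁻¹ w` of `S` (`(σ w).valuation y = w.valuation (δ y)`); a point `w` is in an
orbit of length `m` iff `FreeP K w` (`Gal(M/K) = ⟨δ⟩` has order `m`); `|F₂| = p^(deg P · s₀)`, and for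
`c ∈ F₂`, `∑_j coeff P j · c(σ^j w) = 0`.
Let `e ∈ F_p[X]` with `e ≡ 1 mod P`, `e ≡ 0 mod Q`, where `P Q = X^m - 1` (`P`, `Q` are coprime since
`X^m - 1` is squarefree, `p ∤ m`).
The operators satisfy `pol (A B) δ x ≡ pol A δ (pol B δ x)` and
`pol (A + B) δ x ≡ pol A δ x · pol B δ x` modulo `p`-th powers, and `pol A δ x ≡ pol B δ x` modulo
`p`-th powers if `X^m - 1 ∣ A - B`: `Mˣ/p`-th powers is a module over `F_p[X]/(X^m - 1)`.
For `c ∈ F₂` choose `y` with `v y w = c w` on `S` (`surj`) and put `y_c = pol e δ y`. Then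
`pol P δ y_c` is a `p`-th power (`X^m - 1 ∣ P e`), so it satisfies the conditions; and
`v(y_c) = e(σ*) c = c` on `S`: `v(δ^j x) w = v x (σ^j w)` (`equiv`), and
`∑_j coeff e j · c(σ^j w) = c(w)` because `e - 1` is a multiple of `P` and `P` kills `c`.
For `x ∈ F₁` let `x'` be as in `approx`. `x'/x` satisfies `LocSig` by `S_BIN`, and so does
`pol P δ (x'/x)` (`LocSig` for `above T` is a subgroup stable under `δ`), hence `pol P δ x'`
satisfies `LocSig`; and `v (pol P δ x') = 0` on `S`; so `pol P δ x'` satisfies the conditions.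
The elements `x' y_c` (`x ∈ F₁`, `c ∈ F₂`) are as required: `pol P δ (x' y_c)` satisfies the
conditions; if the quotient of two of them, `x' y_c/(x₁' y_{c₁})`, satisfies the conditions then `v`
of it vanishes on `S`: `c = c₁`; then `x'/x₁'` satisfies `LocSig`, so does `x/x₁`, and `x = x₁`. -/
def S_LOB : Prop :=
  ∀ (p : ℕ) [Fact p.Prime] (k : Type) [NormedField k] [NormedAlgebra ℚ_[p] k]
    [IsUltrametricDist k] [CompleteSpace k], Nonempty (AlgebraicClosure ℚ →+* k) →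
  ∀ (L : IwasawaLog p k) (K M : Type) [Field K] [NumberField K]
    [Field M] [NumberField M] [Algebra K M] [IsGalois K M] (m s₀ : ℕ)
    (δ : M ≃ₐ[K] M) (ζ : k) (Φ : ℤ_[p][X]) (P : (ZMod p)[X]), PhiData p m ζ Φ P →
    orderOf δ = m → finrank K M = m →
  ∀ T : Set (K →+* k), PlaceClosed T →
  ∀ (S : Set (HeightOneSpectrum (𝓞 M))) (𝔪₀ : Ideal (𝓞 M))
    (v : Mˣ → HeightOneSpectrum (𝓞 M) → ZMod p), LSys δ T S 𝔪₀ v →
    {w ∈ S | FreeP K w}.ncard = m * s₀ →
  ∃ F : Finset Mˣ, F.card = p ^ (P.natDegree * (T.ncard + s₀)) ∧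
    (∀ x ∈ F, LSat L (above T : Set (M →+* k)) S v (pol P δ x)) ∧
    ∀ x ∈ F, ∀ y ∈ F, x ≠ y → ¬ LSat L (above T : Set (M →+* k)) S v (x / y)

/-- **S_LAM** (linear algebra). Let `G ⊆ Mˣ` be a subgroup containing the `p`-th powers and stable
under `δ`, `U` a subgroup stable under `δ`. Suppose that a set of elements `x ∈ U` with `P(δ) x` a
`p`-th power, pairwise incongruent modulo `p`-th powers, has at most `N` elements, that there are `N`
elements `x` with `P(δ) x ∈ G` pairwise incongruent modulo `G`, and that there is `x₀ ∈ U ∩ G` with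
`P(δ) x₀` a `p`-th power which is not a `p`-th power. Then there is a homomorphism `λ : Mˣ → ZMod p`,
not trivial, trivial on `U`, on `G`, and on all the `P(δ) x`.

PROOF. `Mˣ/p`-th powers is a module over `F_p[X]/(X^m - 1)` with `X` acting as `δ` (up to `p`-th powers
`pol (A B) = pol A ∘ pol B`, `pol (A + B) = pol A · pol B`). Let `B₁` be the space of the classes
modulo `p`-th powers of the `x ∈ U` with `P(δ) x` a `p`-th power, `B₂` the space of the classes modulo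
`G` of the `x ∈ Mˣ` with `P(δ) x ∈ G`. `|B₁| ≤ N` (in particular it is finite) and `|B₂| ≥ N`. The
natural map `B₁ → B₂` kills the class of `x₀`, which is not zero, so its image has at most
`N/p < N` elements and there is `x₁ ∈ Mˣ` with `P(δ) x₁ ∈ G` whose class is not in the image.
Let `G'` be the subgroup generated by `U`, `G` and all the `pol P δ y`. Claim: `x₁ ∉ G'`. Suppose
`x₁ = u g pol P δ y` (`U`, `G` and the image of `pol P δ` are subgroups). Let `e ∈ F_p[X]` with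
`e ≡ 1 mod P`, `e ≡ 0 mod (X^m - 1)/P` (coprime since `p ∤ m`). Apply `pol e δ`: modulo `G` (which
contains the `p`-th powers and is stable under `δ`): `pol e δ x₁ ≡ x₁` because `e - 1 = P (..)` and
`P(δ) x₁ ∈ G`; `pol e δ (pol P δ y) ≡ 1`; `pol e δ g ∈ G`. So `x₁ ≡ pol e δ u mod G`. But
`u' = pol e δ u ∈ U` and `pol P δ u'` is a `p`-th power. So the class of `x₁` is in the image of `B₁`,
a contradiction.
`Mˣ/G'` is a vector space over `F_p` in which the class of `x₁` is not zero; there is a linear form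
which is not zero on it. -/
def S_LAM : Prop :=
  ∀ (p : ℕ) [Fact p.Prime] (K M : Type) [Field K] [Field M] [Algebra K M] (m : ℕ)
    (δ : M ≃ₐ[K] M) (P : (ZMod p)[X]),
    m.Coprime p → δ ^ m = 1 → Irreducible P → P ∣ X ^ m - 1 →
  ∀ (U G : Subgroup Mˣ), (∀ x, Pw p x → x ∈ G) →
    (∀ x ∈ G, Units.map ((δ : M →+* M) : M →* M) x ∈ G) →
    (∀ x ∈ U, Units.map ((δ : M →+* M) : M →* M) x ∈ U) →
  ∀ N : ℕ, (∀ F : Finset Mˣ, (∀ x ∈ F, x ∈ U ∧ Pw p (pol P δ x)) →
      (∀ x ∈ F, ∀ y ∈ F, x ≠ y → ¬ Pw p (x / y)) → F.card ≤ N) →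
    (∃ F : Finset Mˣ, F.card = N ∧ (∀ x ∈ F, pol P δ x ∈ G) ∧
      ∀ x ∈ F, ∀ y ∈ F, x ≠ y → x / y ∉ G) →
    (∃ x₀ : Mˣ, x₀ ∈ U ∧ x₀ ∈ G ∧ Pw p (pol P δ x₀) ∧ ¬ Pw p x₀) →
  ∃ lam : Mˣ → ZMod p, (∀ x y, lam (x * y) = lam x + lam y) ∧ (∀ x ∈ U, lam x = 0) ∧
    (∀ x ∈ G, lam x = 0) ∧ (∀ x, lam (pol P δ x) = 0) ∧ ∃ x, lam x ≠ 0

/-- **S_CHR** (from `λ` to a ray class character). Let `v` be a system of local conditions at `S`, such
that every divisor is principal outside `S`, `λ : Mˣ → ZMod p` a nontrivial homomorphism, trivial on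
the `S`-units, on the elements satisfying the local conditions, and on the `P(δ) x`. There are an ideal
`𝔪` and an additive ray class character `ψ` modulo `𝔪` such that: (i) a prime is coprime to `𝔪` iff it
is not in `S`; (ii) for the primes `𝔮 ∉ S` and all `l`, `∑_j coeff P j · ψ(δ^(l+j) 𝔮) = 0`; (iii) if
`𝔮 ∉ S` has trivial decomposition group, and `x` satisfies the local conditions at `S` and its
valuations are multiples of `p` at all primes not in `S` and not conjugate to `𝔮`, then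
`∑_{j<m} ord_𝔮(δ^(-j) x) ψ(δ^j 𝔮) = 0`.

PROOF. For a nonzero ideal `I` prime to `S` (not divisible by a prime of `S`) choose `x_I ∈ Mˣ` with
`ord_w(x_I) = ord_w(I)` for `w ∉ S`; `ψ(I) = λ(x_I)` does not depend on the choice because `λ` is
trivial on the `S`-units; put `ψ(I) = 0` for the other `I`. Let `𝔪 = p³ 𝔪₀ ∏_{w ∈ S} w`; the primes
dividing `𝔪` are those of `S` (`abp`, `supp`), so `I + 𝔪 = (1)` iff `I` is prime to `S`; `ψ` is
additive on these ideals. If `α ≠ 0`, `α - 1 ∈ 𝔪`, then `ψ((α)) = λ(α)`; `α` satisfies the local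
conditions: `v α w = 0` for `w ∈ S` by `ray`; `LocSig` by `S_BIN` because `α - 1 ∈ p³ 𝓞_M` gives
`‖τ α - 1‖ ≤ p^(-3)`. So `ψ((α)) = 0`. Not trivial: let `λ(x) ≠ 0`; write `(x) = J I₁ I₂^{-1}` with
`I₁, I₂` integral and prime to `S` and `J` a product of powers of primes of `S`; then
`x x_{I₂}/x_{I₁}` is an `S`-unit, so `ψ(I₁) - ψ(I₂) = λ(x) ≠ 0`, and one of the two is not zero.
(ii) The ideals `δ^l 𝔮` are prime to `S` (`S` is stable) and one can take `x_{δ^j I} = δ^j(x_I)`; so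
the sum is `λ(P(δ) x_{δ^l 𝔮}) = 0` (`λ(p`-th powers`) = 0`).
(iii) `λ(x) = 0`. The primes conjugate to `𝔮` are the `δ^j 𝔮`, `0 ≤ j < m`, distinct, not in `S`, and
`ord_{δ^j 𝔮}(x) = ord_𝔮(δ^(-j) x)`. By the hypothesis and the principality, there is `z ∈ Mˣ` with
`p ord_w(z) = ord_w(x)` for the `w ∉ S` not conjugate to `𝔮` and `ord_w(z) = 0` for the conjugates of
`𝔮`. Then `x z^(-p) ∏_{j<m} x_{δ^j 𝔮}^(-ord_{δ^j 𝔮}(x))` is an `S`-unit, so
`0 = λ(x) = ∑_j ord_{δ^j 𝔮}(x) ψ(δ^j 𝔮)`. -/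
def S_CHR : Prop :=
  ∀ (p : ℕ) [Fact p.Prime] (k : Type) [NormedField k] [NormedAlgebra ℚ_[p] k]
    [IsUltrametricDist k] (L : IwasawaLog p k) (K M : Type) [Field K] [NumberField K]
    [Field M] [NumberField M] [Algebra K M] [IsGalois K M] (m : ℕ)
    (δ : M ≃ₐ[K] M) (P : (ZMod p)[X]), orderOf δ = m → finrank K M = m →
  ∀ (T : Set (K →+* k)) (S : Set (HeightOneSpectrum (𝓞 M))) (𝔪₀ : Ideal (𝓞 M))
    (v : Mˣ → HeightOneSpectrum (𝓞 M) → ZMod p), LSys δ T S 𝔪₀ v →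
    (∀ n : HeightOneSpectrum (𝓞 M) →₀ ℤ, ∃ x : Mˣ, ∀ w ∉ S, ordv w (x : M) = n w) →
  ∀ lam : Mˣ → ZMod p, (∀ x y, lam (x * y) = lam x + lam y) → (∀ x ∈ S.unit M, lam x = 0) →
    (∀ x, LSat L (above T : Set (M →+* k)) S v x → lam x = 0) →
    (∀ x, lam (pol P δ x) = 0) → (∃ x, lam x ≠ 0) →
  ∃ (𝔪 : Ideal (𝓞 M)) (ψ : Ideal (𝓞 M) → ZMod p), IsPsi p 𝔪 ψ ∧
    (∀ w : HeightOneSpectrum (𝓞 M), w.asIdeal ⊔ 𝔪 = ⊤ ↔ w ∉ S) ∧
    (∀ 𝔮 : HeightOneSpectrum (𝓞 M), 𝔮 ∉ S → ∀ l : ℕ,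
      ∑ j ∈ P.support, P.coeff j * ψ (cj δ (l + j) 𝔮.asIdeal) = 0) ∧
    ∀ 𝔮 : HeightOneSpectrum (𝓞 M), 𝔮 ∉ S → FreeP K 𝔮 → ∀ x : Mˣ,
      LSat L (above T : Set (M →+* k)) S v x →
      (∀ w, w ∉ S → ¬ ConjP K w 𝔮 → (p : ℤ) ∣ ordv w (x : M)) →
      ∑ j ∈ Finset.range m,
        (ordv 𝔮 (((δ ^ j)⁻¹ : M ≃ₐ[K] M) (x : M)) : ZMod p) * ψ (cj δ j 𝔮.asIdeal) = 0

/-- **S_DUAL** (duality). Let `v` be a system of local conditions at `S`, such that every divisor is
principal outside `S`. If some `x` with `P(δ) x` a `p`-th power satisfies the local conditions at `S`,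
has valuations divisible by `p` outside `S`, and is not a `p`-th power, then there are an ideal `𝔪` and
an additive ray class character `ψ` modulo `𝔪` with the properties (i), (ii), (iii) of `S_CHR`.

PROOF (from `S_SUB`, `S_UPB`, `S_LOB`, `S_LAM`, `S_CHR`). The set of the `w ∈ S` with `FreeP K w` is
stable under the group `Gal(M/K)` of order `m`, which acts freely on it, so its cardinality is
`m s₀` for some `s₀`. Let `d = T.ncard`. Let `G` be the group of `S_SUB` and `U = S.unit M` (stable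
under `δ` because `S` is stable). With `N = p^(deg P (d + s₀))`, `S_UPB` and `S_LOB` give two of the
hypotheses of `S_LAM`. All the valuations of `x` outside `S` are multiples of `p`, so by the
principality there is `z ∈ Mˣ` with `p ord_w(z) = ord_w(x)` for `w ∉ S`, and `x₀ = x z^(-p) ∈ U`;
`x₀ ∈ G`, `P(δ) x₀` is a `p`-th power and `x₀` is not a `p`-th power. So `S_LAM` applies and gives
`λ`; apply `S_CHR`. -/
def S_DUAL : Prop :=
  ∀ (p : ℕ) [Fact p.Prime] (k : Type) [NormedField k] [NormedAlgebra ℚ_[p] k]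
    [IsUltrametricDist k] [CompleteSpace k], Nonempty (AlgebraicClosure ℚ →+* k) →
  ∀ (L : IwasawaLog p k) (K M : Type) [Field K] [NumberField K] [IsTotallyComplex K]
    [Field M] [NumberField M] [Algebra K M] [IsGalois K M] (m : ℕ)
    (δ : M ≃ₐ[K] M) (ζ : k) (Φ : ℤ_[p][X]) (P : (ZMod p)[X]), PhiData p m ζ Φ P →
    orderOf δ = m → finrank K M = m → TorOK P δ →
  ∀ T : Set (K →+* k), PlaceClosed T → finrank ℚ K = 2 * T.ncard →
  ∀ (S : Set (HeightOneSpectrum (𝓞 M))) (𝔪₀ : Ideal (𝓞 M))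
    (v : Mˣ → HeightOneSpectrum (𝓞 M) → ZMod p), LSys δ T S 𝔪₀ v →
    (∀ n : HeightOneSpectrum (𝓞 M) →₀ ℤ, ∃ x : Mˣ, ∀ w ∉ S, ordv w (x : M) = n w) →
    (∃ x : Mˣ, Pw p (pol P δ x) ∧ LSat L (above T : Set (M →+* k)) S v x ∧
      (∀ w, w ∉ S → (p : ℤ) ∣ ordv w (x : M)) ∧ ¬ Pw p x) →
  ∃ (𝔪 : Ideal (𝓞 M)) (ψ : Ideal (𝓞 M) → ZMod p), IsPsi p 𝔪 ψ ∧
    (∀ w : HeightOneSpectrum (𝓞 M), w.asIdeal ⊔ 𝔪 = ⊤ ↔ w ∉ S) ∧
    (∀ 𝔮 : HeightOneSpectrum (𝓞 M), 𝔮 ∉ S → ∀ l : ℕ,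
      ∑ j ∈ P.support, P.coeff j * ψ (cj δ (l + j) 𝔮.asIdeal) = 0) ∧
    ∀ 𝔮 : HeightOneSpectrum (𝓞 M), 𝔮 ∉ S → FreeP K 𝔮 → ∀ x : Mˣ,
      LSat L (above T : Set (M →+* k)) S v x →
      (∀ w, w ∉ S → ¬ ConjP K w 𝔮 → (p : ℤ) ∣ ordv w (x : M)) →
      ∑ j ∈ Finset.range m,
        (ordv 𝔮 (((δ ^ j)⁻¹ : M ≃ₐ[K] M) (x : M)) : ZMod p) * ψ (cj δ j 𝔮.asIdeal) = 0

/-- **S_STP** (the algebraic step). Let `𝔮` be a prime of `M` and `ψ` a function on ideals with
`ψ(𝔮) ≠ 0` and `∑_j coeff P j · ψ(δ^(l+j) 𝔮) = 0` for all `l`; let `x ∈ Mˣ` with `P(δ) x` a `p`-th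
power, and suppose that, for all `i`, `∑_{j<m} ord_𝔮(δ^(-j) δ^i x) ψ(δ^j 𝔮) = 0`. Then `ord_𝔮(δ^i x)`
is a multiple of `p` for all `i`.

PROOF. Work in `R = F_p[X]/(X^m - 1)`; indices are modulo `m` (`δ^m = 1`). Let
`n(i) = ord_𝔮(δ^(-i) x) mod p`, `w(i) = ψ(δ^i 𝔮)`, `n(X) = ∑_{i<m} n(i) X^i`,
`w*(X) = ∑_{i<m} w(i) X^(-i)` in `R`.
(a) `P(X) n(X) = 0`: `P(δ) x = ∏_j (δ^j x)^(c_j)`, `c_j = (coeff P j).val`, is a `p`-th power, so
`0 = ord_𝔮(δ^(-i) P(δ) x) = ∑_j c_j n(i - j)` for all `i`, which is the coefficient of `X^i` of `P n`.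
(b) `P(X) w*(X) = 0`: the coefficient of `X^(-l)` is `∑_j c_j w(l + j) = 0`.
(c) `n(X) w*(X) = 0`: the coefficient of `X^(-i)` is `∑_j n(j - i) w(j)`, and
`n(j - i) = ord_𝔮(δ^(-j) δ^i x)`; this is the hypothesis.
Let `X^m - 1 = P Q`, `P` and `Q` coprime (`X^m - 1` is squarefree, `p ∤ m`). Let `n(X)`, `w*(X)` be
represented by polynomials `N, W` of degree `< m`. By (a) `P Q ∣ P N`, so `Q ∣ N`; by (b) `Q ∣ W`; by
(c) `P Q ∣ N W`, and so `P ∣ N` or `P ∣ W` (`P` irreducible, coprime to `Q`: `N = Q N'`, `W = Q W'`,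
`P ∣ Q N' W'`). If `P ∣ W`, `P Q ∣ W` and `w* = 0`, but `w(0) ≠ 0`. So `P ∣ N`, `N = 0`: all the
`n(i)` are zero. -/
def S_STP : Prop :=
  ∀ (p : ℕ) [Fact p.Prime] (K M : Type) [Field K] [Field M] [NumberField M] [Algebra K M] (m : ℕ)
    (δ : M ≃ₐ[K] M) (P : (ZMod p)[X]),
    m.Coprime p → δ ^ m = 1 → Irreducible P → P ∣ X ^ m - 1 →
  ∀ (𝔮 : HeightOneSpectrum (𝓞 M)) (ψ : Ideal (𝓞 M) → ZMod p),
    (∀ l : ℕ, ∑ j ∈ P.support, P.coeff j * ψ (cj δ (l + j) 𝔮.asIdeal) = 0) → ψ 𝔮.asIdeal ≠ 0 →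
  ∀ x : Mˣ, Pw p (pol P δ x) →
    (∀ i : ℕ, ∑ j ∈ Finset.range m,
      (ordv 𝔮 (((δ ^ j)⁻¹ : M ≃ₐ[K] M) ((δ ^ i : M ≃ₐ[K] M) (x : M))) : ZMod p) *
        ψ (cj δ j 𝔮.asIdeal) = 0) →
  ∀ i : ℕ, (p : ℤ) ∣ ordv 𝔮 ((δ ^ i : M ≃ₐ[K] M) (x : M))

/-- **S_NSP** (primes with nontrivial decomposition group are harmless). If `P(δ) x` is a `p`-th power
and `w` is a prime of `M` whose decomposition group in `Gal(M/K)` is not trivial, then `p ∣ ord_w(x)`.

PROOF. Let `n(i) = ord_w(δ^(-i) x) mod p`, `i` modulo `m`. As in `S_STP` (a), `P(X) n(X) = 0` in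
`F_p[X]/(X^m - 1)`. The decomposition group of `w` is a nontrivial subgroup of `⟨δ⟩`, generated by
`δ^e` with `e ∣ m`, `0 < e < m`; `ord_w(δ^e y) = ord_w(y)` so `n(i + e) = n(i)`, that is
`(X^e - 1) n(X) = 0`. `P` and `X^e - 1` are coprime (`PhiData.cop`), so `n(X) = 0`. -/
def S_NSP : Prop :=
  ∀ (p : ℕ) [Fact p.Prime] (k : Type) [NormedField k] [NormedAlgebra ℚ_[p] k] (K M : Type)
    [Field K] [Field M] [NumberField M] [Algebra K M] [IsGalois K M] (m : ℕ) (δ : M ≃ₐ[K] M)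
    (ζ : k) (Φ : ℤ_[p][X]) (P : (ZMod p)[X]), PhiData p m ζ Φ P →
    orderOf δ = m → finrank K M = m →
  ∀ (w : HeightOneSpectrum (𝓞 M)), ¬ FreeP K w → ∀ x : Mˣ, Pw p (pol P δ x) →
    (p : ℤ) ∣ ordv w (x : M)

end Pool.Agent.Helper51.RP
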