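import Pool.Agent.Helper51.RP.Defs

/-!
# Project RP (MP_fc6b1e_nt), part I: from a relation between logarithms to a Selmer element

Every statement is a `def ... : Prop` with its complete proof in the docstring; `p` is any prime.
-/

namespace Pool.Agent.Helper51.RP

open NumberField Polynomial Module IsDedekindDomain TensorProduct Pool.Agent.Helper51.SigLeo

/-- **S_PHI.** Let `m > 1` be prime to `p` and let `ζ` be a primitive `m`-th root of unity in an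
ultrametric field `k` over `ℚ_p`. If `p = 2` (so `m ≥ 3`), or in general,
`PhiData p m ζ Φ P` holds for `Φ = minpoly ℤ_p ζ` and its reduction `P`.

PROOF. `ζ` is integral over `ℤ_p` (root of `X^m - 1`), so `Φ = minpoly ℤ_[p] ζ` is monic, `Φ(ζ) = 0`
and `Φ ∣ X^m - 1` (`ℤ_p` is integrally closed, `minpoly.isIntegrallyClosed_dvd`). Put
`P = Φ mod p`, so `P ∣ X^m - 1`. Let `f ≥ 1` be the order of `p` in `(ℤ/m)ˣ`; if `p = 2` then
`f ≥ 2` because `m ∤ 2 - 1`. Let `E = ℚ_p(ζ) ⊆ k`; it is the splitting field of `X^m - 1`, so it is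
Galois over `ℚ_p`, and `deg Φ = [E : ℚ_p] = |Gal(E/ℚ_p)|`.

(a) The residue field. Let `A = {x ∈ E : ‖x‖ ≤ 1}`, `𝔞 = {x ∈ E : ‖x‖ < 1}`, `κ = A/𝔞`, a field of
characteristic `p`. As `∏_{0<i<m} (1 - ζ^i) = m` has norm 1 and all factors have norm `≤ 1`, all the
`1 - ζ^i` (`0 < i < m`) have norm 1, so the image `ζ'` of `ζ` in `κ` has exact order `m`. The
elements `ζ'^(p^i)`, `0 ≤ i < f`, are distinct (as `m ∤ p^i - p^j`), `ζ'^(p^f) = ζ'`; the polynomial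
`Ψ = ∏_{i<f} (X - ζ'^(p^i))` in `κ[X]` is fixed by the Frobenius of the coefficients, so its
coefficients are in the prime field `F_p`; as the conjugates of `ζ'` over `F_p` include all the
`ζ'^(p^i)`, `Ψ` is the minimal polynomial of `ζ'` over `F_p` and it is irreducible of degree `f`.

(b) `deg Φ ≤ f`: let `σ ∈ Gal(E/ℚ_p)`. By the uniqueness of the extension of the absolute value of
`ℚ_p` to the finite extension `E` (Mathlib: `spectralNorm`, `spectralNorm_unique`), `‖σ x‖ = ‖x‖`, so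
`σ` acts on `κ` and it fixes `F_p` and the coefficients of `Ψ`. Write `σ ζ = ζ^j`; then `ζ'^j` is a
root of `Ψ`, `ζ'^j = ζ'^(p^i)` for some `i < f`, `j ≡ p^i mod m`. `σ` is determined by `j mod m`;
hence `|Gal(E/ℚ_p)| ≤ f`.

(c) `P(ζ') = 0` by reduction of `Φ(ζ) = 0` (the coefficients of `Φ` are in `ℤ_p`, the ring map
`ℤ_p → κ` factors through `PadicInt.toZMod : ℤ_p → F_p` because its kernel is the maximal ideal), so
`Ψ ∣ P`, `f ≤ deg P = deg Φ ≤ f`, and both are monic: `P = Ψ` is irreducible of degree `f`.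

(d) If `0 < e < m`, then `P ∤ X^e - 1` because `ζ'^e ≠ 1`; as `P` is irreducible, `P` and `X^e - 1`
are coprime. -/
def S_PHI : Prop :=
  ∀ (p : ℕ) [Fact p.Prime] (k : Type) [NormedField k] [NormedAlgebra ℚ_[p] k]
    [IsUltrametricDist k] (m : ℕ) (ζ : k), m.Coprime p → 1 < m → IsPrimitiveRoot ζ m →
    ∃ (Φ : ℤ_[p][X]) (P : (ZMod p)[X]), PhiData p m ζ Φ P

/-- **S_LA** (linear algebra). Let `A` be a finitely generated abelian group with commuting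
endomorphisms `δ`, `γ`, `δ^m = 1`, `1 + γ + ... + γ^(p-1) = 0`, where `δ` acts as the integer `i` on
the elements of `p`-power order, `P(i) ≠ 0`; `f j : A → ℚ_p` finitely many homomorphisms. Let
`z ∈ k ⊗ A`, `z ≠ 0`, satisfy `δ z = ζ z` and `f j (γ^l z) = 0`. Then there is a sequence `u N` in
`A`, constant modulo `(γ-1)A`, with `u 0 ∉ (γ-1)A`, `P(δ) (u 0) ∈ (γ-1)A` and
`‖f j (γ^l (u N))‖ ≤ p^(-N)`.

PROOF. In `ℤ[X]`, `p - (1 + X + ... + X^(p-1))` is divisible by `X - 1`, so `p A ⊆ (γ-1) A`; the same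
holds for every module on which `1 + γ + ... + γ^(p-1) = 0`.
Let `A' = A / torsion`, free of rank `r`; choose a basis. `k ⊗ A = k ⊗ A' = k^r` (the torsion dies
because `k` has characteristic zero; flatness); `δ`, `γ` act on `A'` by integer matrices `D`, `Γ` and
each `f j` factors through a row vector `φ_j ∈ ℚ_p^r` (as `ℚ_p` is torsion free). The vector
`z ∈ k^r` is not zero and `D z = ζ z`, so `Φ(D) z = Φ(ζ) z = 0`, and `φ_j Γ^l z = 0`. Let
`W = {w ∈ ℚ_p^r : Φ(D) w = 0, φ_j Γ^l w = 0 for all j, l}`. The linear system has coefficients in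
`ℚ_p` and a nonzero solution over `k`, so `W ≠ 0`; `Γ W ⊆ W`. Let `W₀ = W ∩ ℤ_p^r ≠ 0`. CLAIM: there
is `w ∈ W₀` with `w ∉ (Γ-1) ℤ_p^r`. The endomorphism `Γ - 1` of `ℚ_p^r` is injective (if `Γ v = v` then
`0 = (1 + Γ + ... ) v = p v`) so bijective, and bijective on `W`. If the claim fails then every
`w ∈ W₀` is `(Γ-1) v` with `v ∈ ℤ_p^r`, and `v ∈ W`, so `W₀ = (Γ-1) W₀ = (Γ-1)^n W₀` for all `n`; but
`(Γ-1)^(p-1) ∈ p ℤ[Γ]` (`(X-1)^(p-1) ≡ 1 + X + ... + X^(p-1) mod p`), so `W₀ ⊆ p^n ℤ_p^r` for all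
`n`, `W₀ = 0`, a contradiction.

Since `P(i) ≠ 0`, `Φ(i) ∈ ℤ_p` is a unit. Let `h = 1 - Φ(i)^{-1} Φ ∈ ℤ_p[X]`; `h(i) = 0`, so
`h = (X - i) h₁` with `h₁ ∈ ℤ_p[X]`, and `h(D) w = w`. Let `p^c ≥ ‖φ_j Γ^l‖` for all `j`, `l < p`
(`Γ^p = 1`; sup norm of the coordinates). For `N ∈ ℕ` put `N' = N + c + 1`, choose `t_N ∈ ℤ^r` with
`t_N ≡ w mod p^N'`, a lift `a_N ∈ A` of `t_N`, and `g_N ∈ ℤ[X]` with `g_N ≡ h₁ mod p^N'`
(coefficientwise); put `h_N = (X - i) g_N ∈ ℤ[X]` and `u N = h_N(δ)^2 (a_N)`. The image of `u N` in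
`ℤ_p^r` is `≡ h(D)^2 w = w mod p^N'`, so `f j (γ^l (u N))` has norm `≤ p^c p^(-N') ≤ p^(-N)`.

Observe: if `τ ∈ A` is a torsion element then `h_N(δ) τ ∈ p A`: write `τ` as the sum of an element
`τ_p` of `p`-power order, which is killed by `δ - i`, and an element of order prime to `p`, which is
in `p A`.

Constant mod `(γ-1)A`: `h_N ≡ h_0 mod p` coefficientwise, so `u N ≡ h_0(δ)^2 (a_N) mod p A`; and
`a_N - a_0` is `p b + τ` with `τ` torsion because `t_N ≡ w ≡ t_0 mod p`. So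
`u N - u 0 ∈ p A ⊆ (γ-1)A`.
`u 0 ∉ (γ-1)A`: otherwise `w ∈ (Γ-1) ℤ_p^r + p ℤ_p^r = (Γ-1) ℤ_p^r`.
`P(δ)(u 0) ∈ p A ⊆ (γ-1)A`: let `P~ = ∑_j (coeff P j).val X^j ∈ ℤ[X]`, `P~ ≡ Φ mod p`. The image of
`P~(δ) h_0(δ) a_0` in `A'/pA'` is that of `Φ(D) h(D) w = 0`, so `P~(δ) h_0(δ) a_0 = p b + τ` with `τ`
torsion; apply `h_0(δ)`. -/
def S_LA : Prop :=
  ∀ (p : ℕ) [Fact p.Prime] (k : Type) [NormedField k] [NormedAlgebra ℚ_[p] k] (m : ℕ) (ζ : k)
    (Φ : ℤ_[p][X]) (P : (ZMod p)[X]), PhiData p m ζ Φ P →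
  ∀ (A : Type) [AddCommGroup A] [Module.Finite ℤ A] (δ γ : A →+ A) (i : ℕ),
    (∀ x, δ^[m] x = x) → (∀ x, δ (γ x) = γ (δ x)) → (∀ x, ∑ j ∈ Finset.range p, γ^[j] x = 0) →
    (∀ (x : A) (n : ℕ), p ^ n • x = 0 → δ x = i • x) → P.eval (i : ZMod p) ≠ 0 →
  ∀ (ι : Type) [Finite ι] (f : ι → A →+ ℚ_[p]) (z : k ⊗[ℤ] A), z ≠ 0 → extEnd δ z = ζ • z →
    (∀ j l, extHom (((algebraMap ℚ_[p] k : ℚ_[p] →+* k) : ℚ_[p] →+ k).comp (f j))
      ((extEnd γ : (k ⊗[ℤ] A) →ₗ[k] (k ⊗[ℤ] A))^[l] z) = 0) →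
  ∃ u : ℕ → A, (∀ N, ∃ b, u N = u 0 + (γ b - b)) ∧ (¬ ∃ b, u 0 = γ b - b) ∧
    (∃ b, ∑ j ∈ P.support, (P.coeff j).val • δ^[j] (u 0) = γ b - b) ∧
    ∀ N j l, ‖f j (γ^[l] (u N))‖ ≤ (1 / p : ℝ) ^ N

/-- **S_RAT** (rationality of the logarithms). Let `H` be a number field, `T` a place closed set of
embeddings of `H` in `k`. There are finitely many homomorphisms `f i : 𝓞_Hˣ → ℚ_p` such that the
maps `u ↦ L(τ u)`, `τ ∈ T`, are linear combinations of them with coefficients in `k`, and such that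
a vector of `k ⊗ 𝓞_Hˣ` which is killed by all the `L ∘ τ`, `τ ∈ T`, is killed by all the `f i`.

PROOF. `H` has exactly `n = [H : ℚ]` embeddings `τ_1, ..., τ_n` in `k` (there is an embedding of the
algebraic closure of `ℚ` in `k`). Let `b_1, ..., b_n` be an integral basis of `𝓞_H`, and
`v(b) = (τ_j b)_j ∈ k^n` for `b ∈ H`. The determinant of `(τ_j b_i)` is not zero (its square is the
discriminant), so the `v(b_i)` are linearly independent over `k`. Let `W` be the `ℚ_p`-span of the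
`v(b_i)`, equivalently of all the `v(b)`. It is a finite dimensional `ℚ_p`-subspace of `k^n`, so it
is closed, and it is a subring (coordinatewise multiplication) since `v(b) v(b') = v(b b')`.

(1) Let `e ∈ k^n`, `e_j = 1` if `τ_j ∈ T` and `e_j = 0` otherwise. Then `e ∈ W`. For each `j` let
`𝔓_j = {x ∈ 𝓞_H : ‖τ_j x‖ < 1}`, a prime ideal containing `p` (integral elements have norm `≤ 1`).
If `𝔓_i = 𝔓_j` then `‖τ_i x‖ = ‖τ_j x‖` for all `x ∈ H`: let `π ∈ 𝔓_i ∖ 𝔓_i²`; every `x ≠ 0` of `H`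
is `π^a y/y'` with `y, y' ∈ 𝓞_H ∖ 𝔓_i` and `a = ord(x)`, so `‖τ_i x‖ = ‖τ_i π‖^a`; for `x = p` this
gives `‖τ_i π‖ = (1/p)^(1/ord(p))`, the same number for `i` and `j`. So, as `T` is place closed,
there is a set `R` of primes above `p` with `τ_j ∈ T ↔ 𝔓_j ∈ R`. By the Chinese remainder theorem
there is for each `N` an `e_N ∈ 𝓞_H` with `e_N ≡ 1 mod 𝔓^N` for `𝔓 ∈ R` and `e_N ≡ 0 mod 𝔓^N` for
the other primes above `p`; as `‖τ_j x‖ ≤ ‖τ_j π‖^N` for `x ∈ 𝔓_j^N`, `v(e_N) → e`; `W` is closed.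

(2) For `u ∈ 𝓞_Hˣ`, `λ(u) = (L(τ_j u))_j ∈ W`: there is `q > 0` with `u^q ≡ 1 mod p 𝓞_H` (the unit
group of the finite ring `𝓞_H/p` is finite), so `‖τ_j(u^q) - 1‖ < 1` for all `j` and the partial sums
of the series for `L(τ_j(u^q))` are the coordinates of `v(partial sum) ∈ W`. So
`q λ(u) = λ(u^q) ∈ W`.

(3) `e λ(u) ∈ W`: write `e λ(u) = ∑ f_i(u) v(b_i)` with `f_i(u) ∈ ℚ_p`; `f_i` is a homomorphism. For
`τ_j ∈ T`, `L(τ_j u) = ∑_i f_i(u) τ_j(b_i)`: this is the second conclusion with `c i = τ_j(b_i)`.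
First conclusion: let `z = ∑_l c_l ⊗ u_l` be killed by all `L ∘ τ`, `τ ∈ T`. For every `j`,
`∑_i (∑_l c_l f_i(u_l)) τ_j(b_i) = ∑_l c_l e_j L(τ_j u_l)` is zero (if `τ_j ∈ T` by hypothesis,
otherwise because `e_j = 0`). The matrix `(τ_j b_i)` is invertible, so `∑_l c_l f_i(u_l) = 0` for
all `i`. -/
def S_RAT : Prop :=
  ∀ (p : ℕ) [Fact p.Prime] (k : Type) [NormedField k] [NormedAlgebra ℚ_[p] k]
    [IsUltrametricDist k] [CompleteSpace k], Nonempty (AlgebraicClosure ℚ →+* k) →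
  ∀ (L : IwasawaLog p k) (H : Type) [Field H] [NumberField H] (T : Set (H →+* k)), PlaceClosed T →
  ∃ (n : ℕ) (f : Fin n → (Additive (𝓞 H)ˣ →+ ℚ_[p])),
    (∀ z : k ⊗[ℤ] Additive (𝓞 H)ˣ, (∀ τ ∈ T, extHom (logUnits L τ) z = 0) →
      ∀ i, extHom (((algebraMap ℚ_[p] k : ℚ_[p] →+* k) : ℚ_[p] →+ k).comp (f i)) z = 0) ∧
    ∀ τ ∈ T, ∃ c : Fin n → k, ∀ u, logUnits L τ u = ∑ i, f i u • c i

/-- **S_ROO** (`p`-th roots of `a ≡ 1 mod p³`). There is a sequence `s N` in `𝓞_K` with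
`p^N ∣ (s N)^p - a`, `p^N ∣ s (N+1) - s N`, `p² ∣ s N - 1`.

PROOF. Construct `s N` with `p^(N+3) ∣ (s N)^p - a`, `p² ∣ s N - 1`, `p^(N+2) ∣ s (N+1) - s N`: start
from `s 0 = 1`. Given `s = s N` with `s^p - a = p^(N+3) e`, let `s' = s - p^(N+2) e`. Then
`s'^p - a = p^(N+3) e (1 - s^(p-1)) + ∑_{j≥2} C(p,j) s^(p-j) (-p^(N+2) e)^j`. The first term is
divisible by `p^(N+5)` since `s ≡ 1 mod p²`; for `2 ≤ j < p` the term is divisible by
`p^(1 + j(N+2))`, for `j = p` by `p^(p(N+2))`, and both exponents are `≥ 2(N+2) ≥ N + 4`. And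
`p² ∣ s' - 1`. -/
def S_ROO : Prop :=
  ∀ (p : ℕ) [Fact p.Prime] (K : Type) [Field K] [NumberField K] (a : 𝓞 K),
    (p : 𝓞 K) ^ 3 ∣ a - 1 →
  ∃ s : ℕ → 𝓞 K, (∀ N, (p : 𝓞 K) ^ N ∣ s N ^ p - a) ∧ (∀ N, (p : 𝓞 K) ^ N ∣ s (N + 1) - s N) ∧
    ∀ N, (p : 𝓞 K) ^ 2 ∣ s N - 1

/-- **S_RAM** (valuations which are multiples of `p`). `H/M` is a Kummer extension of degree `p`:
`ε ∈ M` is a primitive `p`-th root of unity, `H = M(s)`, `s^p = a ∈ 𝓞_M`, `p³ ∣ a - 1`, `γ s = ε s`.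
If `y ∈ Hˣ` is such that `γ(y)/y` is a unit `u`, then the valuation of `x = N(y) ∈ M` is a multiple of
`p` at all the primes `v` of `M` at which the valuation of `a` is a multiple of `p`.

PROOF. Let `w` be a prime of `H` above `v`, `ord_w = -log` of its valuation, `e ≥ 1` the
ramification index: `ord_w(c) = e ord_v(c)` for `c ∈ M`, `c ≠ 0`. We have `γ^j(y) = u_j y` with units
`u_j` (`u_0 = 1`), so `e ord_v(x) = ord_w(∏ γ^j y) = p ord_w(y)`. CLAIM: there is `c ∈ Mˣ` with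
`ord_w(y) = ord_w(c) = e ord_v(c)`. Then `ord_v(x) = p ord_v(c)`.
The elements `1, s, ..., s^(p-1)` form a basis of `H/M` (`γ` has order `p`, the `s^i` are
eigenvectors of `γ` for distinct eigenvalues).
*Case `v ∤ p`.* Choose `c₀ ∈ Mˣ` with `ord_v(a c₀^p) = 0`, `θ = c₀ s`, so `ord_w(θ) = 0`. Write
`y = ∑_{i<p} α_i θ^i`, `α_i ∈ M`. Then `p α_i θ^i = ∑_j ε^(-ij) γ^j(y) = η_i y` with
`η_i = ∑_j ε^(-ij) u_j ∈ 𝓞_H`, and `∑_i η_i = p u_0 = p`. Since `ord_w(p) = 0`, there is `i` with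
`ord_w(η_i) = 0`; then `ord_w(y) = ord_w(p α_i θ^i) = ord_w(α_i)`.
*Case `v ∣ p`.* Let `s_N ∈ 𝓞_M` be the sequence of `S_ROO` for `a`. Up to sign
`∏_{j<p} (ε^j s - s_N) = s^p - s_N^p = a - s_N^p`, of `ord_w ≥ N`. So for each `N` there is
`j = j(N)` with `ord_w(ε^j s - s_N) ≥ N/p` (or the element is zero); choose `j` which occurs for
infinitely many `N`, and such an `N` with `N/p` larger than all the finitely many numbers
`ord_w(y) - ord_w(β_i) - ...` used below. Write `y = ∑ α_i s^i` and put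
`c = ∑ α_i (ε^(-j) s_N)^i ∈ M`; `y - c = ∑ α_i (s^i - (ε^(-j) s_N)^i)` is divisible by
`s - ε^(-j) s_N` with cofactors of `ord_w ≥ min ord_w(α_i)`, so for `N` large
`ord_w(y - c) > ord_w(y)`, hence `ord_w(c) = ord_w(y)` (`c ≠ 0`). -/
def S_RAM : Prop :=
  ∀ (p : ℕ) [Fact p.Prime] (M H : Type) [Field M] [NumberField M] [Field H] [NumberField H]
    [Algebra M H] (ε : M) (a : 𝓞 M) (s : H) (γ : H ≃ₐ[M] H), IsPrimitiveRoot ε p → a ≠ 0 →
    (p : 𝓞 M) ^ 3 ∣ a - 1 → finrank M H = p → s ^ p = algebraMap M H a →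
    γ s = algebraMap M H ε * s →
  ∀ (y : Hˣ) (u : (𝓞 H)ˣ) (x : M), γ (y : H) = (u : H) * y →
    algebraMap M H x = ∏ j ∈ Finset.range p, (γ ^ j) (y : H) →
  ∀ v : HeightOneSpectrum (𝓞 M), (p : ℤ) ∣ ordv v (a : M) → (p : ℤ) ∣ ordv v x

/-- **S_TAM** (the tame condition). With `H/M`, `ε`, `s^p = a`, `γ` as in `S_RAM` (no condition on
`a`), if `ord_v(a)` is prime to `p` and `x = N(y)`, `y ∈ Hˣ`, then `Tame p v a x`.

PROOF. Write `y = ∑_{i<p} α_i s^i`, `α_i ∈ M`. For the `i` with `α_i ≠ 0` the integers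
`n_i = p ord_v(α_i) + i ord_v(a)` are distinct modulo `p`; let `i₀` be the one for which `n_i` is
minimal. Let `w` be a prime of `H` above `v` and `e` its ramification index: `p ord_w(α_i s^i) = e n_i`.
So the elements `t_i = α_i s^i / (α_{i₀} s^{i₀})`, `i ≠ i₀`, have `ord_w(t_i) > 0` for all the `w` above
`v`, and so have their conjugates `γ^j t_i = ε^(j(i - i₀)) t_i`. With `t = ∑ t_i`,
`y = α_{i₀} s^{i₀} (1 + t)`, and
`x = ∏_j γ^j(y) = α_{i₀}^p (∏_j ε^j s)^{i₀} ∏_j (1 + γ^j t) = α_{i₀}^p ((-1)^(p-1) a)^{i₀} (1 + t')`,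
because `∏_j ε^j s = ε^(p(p-1)/2) a = (-1)^(p-1) a` (for `p` odd `ε^(p(p-1)/2) = 1`, for `p = 2`
it is `ε = -1`), where `1 + t' = ∏_j (1 + γ^j t) ∈ M` (quotient of elements of `M`) and
`ord_w(t') > 0`, so `t' = 0` or `ord_v(t') > 0`. So with `a' = (-1)^(p-1) a`, `i = (p-1) i₀` and
`z = (α_{i₀} a'^{i₀})^{-1}` we get `x a'^i z^p = 1 + t'`. -/
def S_TAM : Prop :=
  ∀ (p : ℕ) [Fact p.Prime] (M H : Type) [Field M] [NumberField M] [Field H] [NumberField H]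
    [Algebra M H] (ε a : M) (s : H) (γ : H ≃ₐ[M] H), IsPrimitiveRoot ε p → a ≠ 0 →
    finrank M H = p → s ^ p = algebraMap M H a → γ s = algebraMap M H ε * s →
  ∀ (y : Hˣ) (x : M), algebraMap M H x = ∏ j ∈ Finset.range p, (γ ^ j) (y : H) →
  ∀ v : HeightOneSpectrum (𝓞 M), ¬ (p : ℤ) ∣ ordv v a → Tame p v a x

/-- The data of part I. `M/K` is cyclic of degree `m`, `H/M` of degree `p`; `Gal(H/K)` contains `γ`, of
order `p`, trivial on `M`, and `δ'`, of order `m`, which extends the generator `δ`, and they commute.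
`M₁ = M(ε)` and `H₁ = H(ε) = M₁(s)`, `s^p = a ∈ 𝓞_{M₁}`, `a ≡ 1 mod p³`, `γ₁ s = ε s`, where
`γ₁ ∈ Gal(H₁/M₁)` extends `γ`; `[M₁ : M]` is prime to `p`. -/
structure HData {p : ℕ} {k : Type} [NormedField k] (K M H M₁ H₁ : Type) [Field K] [NumberField K]
    [Field M] [NumberField M] [Field H] [NumberField H] [Field M₁] [NumberField M₁] [Field H₁]
    [NumberField H₁] [Algebra K M] [Algebra M H] [Algebra K H] [Algebra M M₁] [Algebra M₁ H₁]
    [Algebra H H₁] (m : ℕ) (δ : M ≃ₐ[K] M) (γ δ' : H ≃ₐ[K] H) (γ₁ : H₁ ≃ₐ[M₁] H₁)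
    (T : Set (K →+* k)) (ε : M₁) (a : 𝓞 M₁) (s : H₁) : Prop where
  order : orderOf δ = m
  deg : finrank K M = m
  degH : finrank M H = p
  degH₁ : finrank M₁ H₁ = p
  compat : ∀ x : M, algebraMap M₁ H₁ (algebraMap M M₁ x) = algebraMap H H₁ (algebraMap M H x)
  cop : (finrank M M₁).Coprime p
  gal : IsGalois M M₁
  prim : IsPrimitiveRoot ε p
  ne : a ≠ 0
  adm : (p : 𝓞 M₁) ^ 3 ∣ a - 1
  pow : s ^ p = algebraMap M₁ H₁ a
  γs : γ₁ s = algebraMap M₁ H₁ ε * s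
  ext : ∀ y : H, γ₁ (algebraMap H H₁ y) = algebraMap H H₁ (γ y)
  γM : ∀ x : M, γ (algebraMap M H x) = algebraMap M H x
  γo : orderOf γ = p
  δM : ∀ x : M, δ' (algebraMap M H x) = algebraMap M H (δ x)
  δo : orderOf δ' = m
  comm : ∀ y : H, γ (δ' y) = δ' (γ y)
  closed : PlaceClosed T

/-- **S_HIL** (from units to Selmer elements). Let `u N ∈ 𝓞_Hˣ` be a sequence with norm
`∏_j γ^j(u N) = 1`, constant modulo the `γ(b)/b` with `b` a unit of norm 1, such that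
`P(δ')(u 0) = γ(b)/b` with `b` a unit of norm 1, and `‖L(τ(γ^l(u N)))‖ ≤ p^(-N)` for all the
embeddings `τ` of `H` above `T` and all `l`. Then there is `x ∈ Sel(a)` such that, if `x` is a `p`-th
power in `Mˣ`, then `u 0 = γ(t)/t` with `t` a unit of norm 1.

PROOF. Put `u = u 0`. By Hilbert 90 for `H/M` (cyclic of degree `p`, group generated by `γ`; Mathlib:
`groupCohomology.exists_div_of_norm_eq_one`, or directly by the linear independence of the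
characters) there is `y ∈ Hˣ` with `γ(y) = u y`. The norm `∏_j γ^j(y)` is fixed by `γ`, so it is the
image of some `x ∈ Mˣ` (`[H : M] = p` and `γ` has order `p`, so `M` is the fixed field of `γ`). Claim:
`x` is as required. Write `N` for the norm `∏_{j<p} γ^j` as a map `Hˣ → Mˣ`.

*pol.* `γ` and `δ'` commute, `N(δ' y) = δ(N y)`. Let `y' = P(δ')(y) = ∏_j (δ'^j y)^(coeff P j)`;
`γ(y') = P(δ')(u) y' = (γ(b)/b) y'`, so `y'/b` is fixed by `γ`, `y'/b = c ∈ Mˣ`, and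
`P(δ)(x) = N(y') = N(b) N(c) = c^p`.

*p-th powers.* If `x = w^p`, `w ∈ Mˣ`, let `t = y/w`: `N(t) = 1` and `γ(t)/t = γ(y)/y = u`. It remains
to see that `t` is a unit: for a prime `𝔴` of `H`, `γ(t) = u t` gives `ord_𝔴(γ^j t) = ord_𝔴(t)` for
all `j`, and `0 = ord_𝔴(N t) = p ord_𝔴(t)`.

*loc.* Let `W` be a prime of `M₁`, `y₁ ∈ H₁` the image of `y`; `γ₁(y₁) = u₁ y₁` with `u₁` the image of
the unit `u`, and `∏_j γ₁^j(y₁)` is the image of `x` (`compat`, `ext`). Apply `S_RAM` and `S_TAM` to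
`H₁/M₁`.

*sig.* Let `N ∈ ℕ`. Let `b_N` be a unit of norm 1 with `u N = u γ(b_N)/b_N`. With `y' = y b_N`:
`γ(y') = (u N) y'` and `N(y') = N(y)`, the image of `x`. Let `y'₁ ∈ H₁` be the image of `y'`,
`y'₁ = ∑_{i<p} α_i s^i`, `α_i ∈ M₁`, and let `s_j ∈ 𝓞_{M₁}` be the sequence of `S_ROO`. Let `τ` be an
embedding of `M₁` in `k` whose restriction to `K` is in `T`. The sequence `τ(s_j)` is Cauchy; its limit
`ℓ` satisfies `ℓ^p = τ(a)` and `‖ℓ - 1‖ < 1`; as `H₁ = M₁(s)` and `X^p - a` is irreducible over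
`M₁`, for each `i` there is an embedding `τ_i` of `H₁` in `k` extending `τ` with
`τ_i(s) = τ(ε)^i ℓ`; `τ_0 ∘ γ₁^i = τ_i`. The restriction of `τ_i` to `H` is above `T`, so
`‖L(τ_i(u N))‖ ≤ p^(-N)`, and `τ_{i+1}(y') = τ_i(γ₁ y') = τ_i(u N) τ_i(y')`. So
`τ(x) = ∏_i τ_i(y') = τ_0(y')^p η`, where `η` is a product of norm 1 elements `τ_i(u N)` (units), and
`‖L(η)‖ ≤ p^(-N)`. As `τ(∑ α_i s_j^i) → τ_0(y') ≠ 0`, for `j` large `c_j = ∑ α_i s_j^i ≠ 0` and the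
quotient `r_j = τ_0(y')/τ(c_j)` satisfies `‖r_j - 1‖ ≤ p^(-N-2)`. There are finitely many `τ`; choose
one `j` good for all of them and put `c = c_j^{-1} ∈ M₁ˣ`: `τ(x c^p) = r_j^p η` has norm 1 and
logarithm of norm `≤ p^(-N)` (`‖L(r)‖ ≤ p^(-n)·p` if `‖r - 1‖ ≤ p^(-n)`, `n ≥ 1`: the terms of the
series have norm `≤ p^(-n(i+1)) (i+1) ≤ p^(-n) p`).
Now let `g = [M₁ : M]`, prime to `p`, and choose `n, n' ∈ ℕ` with `n g = 1 + p n'`. The norm
`N₁ = N_{M₁/M}` gives `N₁(x c^p) = x^g N₁(c)^p`; for an embedding `τ` of `M` above `T`,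
`τ(N₁(z)) = ∏ τ'(z)` over the embeddings `τ'` of `M₁` extending `τ` (all above `T`); so
`x^g N₁(c)^p` satisfies `SigSmall N` on `M`, and so does its `n`-th power
`x^(n g) N₁(c)^(n p) = x (x^(n') N₁(c)^n)^p`. -/
def S_HIL : Prop :=
  ∀ (p : ℕ) [Fact p.Prime] (k : Type) [NormedField k] [NormedAlgebra ℚ_[p] k]
    [IsUltrametricDist k] [CompleteSpace k], Nonempty (AlgebraicClosure ℚ →+* k) →
  ∀ (L : IwasawaLog p k) (K M H M₁ H₁ : Type) [Field K] [NumberField K]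
    [Field M] [NumberField M] [Field H] [NumberField H] [Field M₁] [NumberField M₁] [Field H₁]
    [NumberField H₁] [Algebra K M] [Algebra M H] [Algebra K H] [IsScalarTower K M H]
    [Algebra M M₁] [Algebra M₁ H₁] [Algebra H H₁] (m : ℕ) (δ : M ≃ₐ[K] M)
    (γ δ' : H ≃ₐ[K] H) (γ₁ : H₁ ≃ₐ[M₁] H₁) (T : Set (K →+* k)) (ε : M₁) (a : 𝓞 M₁) (s : H₁)
    (P : (ZMod p)[X]), HData (p := p) K M H M₁ H₁ m δ γ δ' γ₁ T ε a s →
  ∀ u : ℕ → (𝓞 H)ˣ, (∀ N, ∏ j ∈ Finset.range p, (γ ^ j) (u N : H) = 1) →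
    (∀ N, ∃ b : (𝓞 H)ˣ, ∏ j ∈ Finset.range p, (γ ^ j) (b : H) = 1 ∧
      (u N : H) * b = u 0 * γ (b : H)) →
    (∃ b : (𝓞 H)ˣ, ∏ j ∈ Finset.range p, (γ ^ j) (b : H) = 1 ∧
      (∏ j ∈ P.support, ((δ' ^ j) (u 0 : H)) ^ (P.coeff j).val) * b = γ (b : H)) →
    (∀ N l, ∀ τ ∈ (above (above T : Set (M →+* k)) : Set (H →+* k)),
      ‖logUnits L τ ((unitsHom γ)^[l] (Additive.ofMul (u N)))‖ ≤ (1 / p : ℝ) ^ N) →
  ∃ x : Mˣ, Sel L (above T) P δ (algebraMap (𝓞 M₁) M₁ a) x ∧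
    (Pw p x → ∃ t : (𝓞 H)ˣ, ∏ j ∈ Finset.range p, (γ ^ j) (t : H) = 1 ∧
      (u 0 : H) * t = γ (t : H))

/-- **S_P1** (part I). If all the elements of `Sel(a)` are `p`-th powers, then a vector `z` of
`k ⊗ 𝓞_Hˣ` with `γ z = ε z` for a primitive `p`-th root of unity `ε ∈ k`, `δ' z = ζ z`, which is
killed by the logarithms `L ∘ τ`, for all the embeddings `τ` of `H` above `T`, is zero.

PROOF (from `S_LA`, `S_RAT`, `S_HIL`). Suppose `z ≠ 0`. Let `U` be the subgroup of the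
`u ∈ 𝓞_Hˣ` with `∏_j γ^j(u) = 1` (as an additive group). `δ'` and `γ` preserve `U`, `δ'^m = 1`,
`1 + γ + ... + γ^(p-1) = 0` on `U`. `U` is finitely generated (Dirichlet). The map `q : u ↦ γ(u)/u`
goes from `𝓞_Hˣ` to `U` (`γ^p = 1`), and commutes with `δ'`, `γ`; let `z' ∈ k ⊗ U` be the image of `z`
under `k ⊗ q`. The image of `z'` in `k ⊗ 𝓞_Hˣ` is `γ z - z = (ε - 1) z ≠ 0`, so `z' ≠ 0`;
`δ' z' = ζ z'`, `γ z' = ε z'`. The elements of `U` of `p`-power order are roots of unity: `TorOK` gives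
the integer `i`.
Let `n, f` be given by `S_RAT` for `H` and `T' = above (above T)` (place closed: an equality of
norms on `H` gives one on `K`). The restrictions of the `f j` to `U` kill `γ^l z' = ε^l z'`: its image
in `k ⊗ 𝓞_Hˣ` is a multiple of `z`, which is killed by the `L ∘ τ`, `τ ∈ T'`. Apply `S_LA` to
`A = U`, `δ'`, `γ` and the `f j`: there is a sequence `u N` as stated. By the second conclusion of
`S_RAT` there is a constant `c` (`T'` is finite; take the maximum of the norms of the coefficients)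
with `‖L(τ(γ^l(u N)))‖ ≤ p^c p^(-N)` for all `τ ∈ T'`. Replace the sequence by `N ↦ u (N + c)`
(all the `u N` are congruent modulo `(γ-1)U`, and `P(δ')(u 0) ∈ (γ-1)U` implies
`P(δ')(u c) ∈ (γ-1)U`). All the hypotheses of `S_HIL` hold; we get `x ∈ Sel(a)`, a `p`-th power by
hypothesis, so `u c = γ(t)/t` with `t ∈ U`, contrary to `¬ ∃ b, u 0 = γ b - b` of `S_LA`. -/
def S_P1 : Prop :=
  ∀ (p : ℕ) [Fact p.Prime] (k : Type) [NormedField k] [NormedAlgebra ℚ_[p] k]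
    [IsUltrametricDist k] [CompleteSpace k], Nonempty (AlgebraicClosure ℚ →+* k) →
  ∀ (L : IwasawaLog p k) (K M H M₁ H₁ : Type) [Field K] [NumberField K]
    [Field M] [NumberField M] [Field H] [NumberField H] [Field M₁] [NumberField M₁] [Field H₁]
    [NumberField H₁] [Algebra K M] [Algebra M H] [Algebra K H] [IsScalarTower K M H]
    [Algebra M M₁] [Algebra M₁ H₁] [Algebra H H₁] (m : ℕ) (δ : M ≃ₐ[K] M)
    (γ δ' : H ≃ₐ[K] H) (γ₁ : H₁ ≃ₐ[M₁] H₁) (T : Set (K →+* k)) (ε : M₁) (a : 𝓞 M₁) (s : H₁)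
    (ζ : k) (Φ : ℤ_[p][X]) (P : (ZMod p)[X]), PhiData p m ζ Φ P →
    HData (p := p) K M H M₁ H₁ m δ γ δ' γ₁ T ε a s → TorOK P δ' →
    (∀ x : Mˣ, Sel L (above T) P δ (algebraMap (𝓞 M₁) M₁ a) x → Pw p x) →
  ∀ (ε' : k), IsPrimitiveRoot ε' p →
  ∀ z : k ⊗[ℤ] Additive (𝓞 H)ˣ, extEnd (unitsHom γ) z = ε' • z → extEnd (unitsHom δ') z = ζ • z →
    (∀ τ ∈ (above (above T : Set (M →+* k)) : Set (H →+* k)), extHom (logUnits L τ) z = 0) → z = 0

end Pool.Agent.Helper51.RP
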