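import Pool.Agent.Helper51.SigLeo.Defs

/-!
# Project RP (MP_fc6b1e_nt): definitions, for all primes `p`

`K` is a number field, `M/K` a cyclic extension of degree `m` prime to `p` with generator `δ` of the
Galois group, `P` a polynomial over `ZMod p`, `k` the field `ℂ_p` (a complete ultrametric field over
`ℚ_[p]`), `T` a set of embeddings in `k`, `L` Iwasawa's logarithm. `M₁` is a finite extension of `M`
of degree prime to `p` which contains a primitive `p`-th root of unity (`M₁ = M` is allowed), and `a`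
is an element of `M₁`. The twisted Selmer group `Sel` of `a` consists of elements of `Mˣ`, to be
regarded modulo `p`-th powers.
-/

namespace Pool.Agent.Helper51.RP

open NumberField Polynomial Module IsDedekindDomain Pool.Agent.Helper51.SigLeo

/-- The additive valuation of `x : M` at the prime `v` (equal to `0` at `x = 0`). -/
noncomputable def ordv {M : Type} [Field M] [NumberField M] (v : HeightOneSpectrum (𝓞 M))
    (x : M) : ℤ := -WithZero.log (v.valuation M x)

/-- `x` times the `p`-th power of an element is congruent to `1` modulo `v`: if `v` does not divide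
`p`, this says that `x` is a nonzero `p`-th power in the completion at `v`. -/
def LocPow (p : ℕ) {M : Type} [Field M] [NumberField M] (v : HeightOneSpectrum (𝓞 M)) (x : M) :
    Prop := ∃ y : M, v.valuation M (x * y ^ p - 1) < 1

/-- The tame condition at a prime `v` (not above `p`) where the valuation of `a` is prime to `p`: `x`
is a norm from the completion of `M(a^(1/p))`, that is `x` is the product of a power of
`N(a^(1/p)) = (-1)^(p-1) a` and of a `p`-th power in the completion at `v`. -/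
def Tame (p : ℕ) {M : Type} [Field M] [NumberField M] (v : HeightOneSpectrum (𝓞 M)) (a x : M) :
    Prop := ∃ i : ℕ, LocPow p v (x * ((-1) ^ (p - 1) * a) ^ i)

/-- `x` is a `p`-th power in `Mˣ`. -/
def Pw (p : ℕ) {M : Type} [Field M] (x : Mˣ) : Prop := ∃ y : Mˣ, x = y ^ p

/-- The operator `P(δ)` on `Mˣ`, for a polynomial `P` over `ZMod p` lifted to a polynomial with
coefficients in `{0, ..., p-1}`: `x ↦ ∏_j (δ^j x)^(coeff P j)`. -/
noncomputable def pol {p : ℕ} {K M : Type} [Field K] [Field M] [Algebra K M] (P : (ZMod p)[X])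
    (δ : M ≃ₐ[K] M) : Mˣ →* Mˣ :=
  ∏ j ∈ P.support, (Units.map (((δ ^ j : M ≃ₐ[K] M) : M →+* M) : M →* M)) ^ (P.coeff j).val

section sigma

variable {k : Type} [NormedField k] {K M : Type} [Field K] [Field M]

/-- All the embeddings in `T` send `x` to a unit whose logarithm has norm at most `p^(-N)`. -/
def SigSmall {p : ℕ} (L : IwasawaLog p k) (T : Set (M →+* k)) (N : ℕ) (x : Mˣ) : Prop :=
  ∀ τ ∈ T, ‖τ (x : M)‖ = 1 ∧ ‖L.toFun (Units.map (τ : M →* k) x)‖ ≤ (1 / p : ℝ) ^ N

/-- The local condition at the primes of `Σ_p`: up to `p`-th powers the logarithms are arbitrarily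
small. -/
def LocSig {p : ℕ} (L : IwasawaLog p k) (T : Set (M →+* k)) (x : Mˣ) : Prop :=
  ∀ N : ℕ, ∃ y : Mˣ, SigSmall L T N (x * y ^ p)

/-- The embeddings of `M` whose restriction to `K` is in `T`. -/
def above [Algebra K M] (T : Set (K →+* k)) : Set (M →+* k) :=
  {τ | τ.comp (algebraMap K M) ∈ T}

/-- `T` is a union of classes of embeddings which induce the same `p`-adic absolute value. -/
def PlaceClosed (T : Set (K →+* k)) : Prop :=
  ∀ σ τ : K →+* k, (∀ x : K, ‖σ x‖ = ‖τ x‖) → (σ ∈ T ↔ τ ∈ T)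

end sigma

/-- The local conditions at the prime `W` of `M₁` for the element `x` of `M₁`. -/
def LocAt (p : ℕ) {M₁ : Type} [Field M₁] [NumberField M₁] (W : HeightOneSpectrum (𝓞 M₁))
    (a x : M₁) : Prop :=
  ((p : ℤ) ∣ ordv W a → (p : ℤ) ∣ ordv W x) ∧ (¬ (p : ℤ) ∣ ordv W a → Tame p W a x)

/-- The twisted Selmer group of `a`: the `x` in `Mˣ` such that `P(δ) x` is a `p`-th power, the
valuations of `x` are multiples of `p` at all primes of `M₁` where the valuation of `a` is a multiple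
of `p`, `x` satisfies the tame condition at the other primes of `M₁`, and the logarithmic condition
at the places of `T`. -/
structure Sel {p : ℕ} {k : Type} [NormedField k] {K M : Type} [Field K] [Field M]
    [Algebra K M] {M₁ : Type} [Field M₁] [NumberField M₁] [Algebra M M₁] (L : IwasawaLog p k)
    (T : Set (M →+* k)) (P : (ZMod p)[X]) (δ : M ≃ₐ[K] M) (a : M₁) (x : Mˣ) : Prop where
  pol : Pw p (pol P δ x)
  loc : ∀ W : HeightOneSpectrum (𝓞 M₁), LocAt p W a (algebraMap M M₁ x)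
  sig : LocSig L T x

section primes

variable {K M : Type} [Field K] [Field M] [NumberField M] [Algebra K M]

/-- The primes `w` and `v` are conjugate: `w = g(v)`. -/
def ConjP (K : Type) {M : Type} [Field K] [Field M] [NumberField M] [Algebra K M]
    (w v : HeightOneSpectrum (𝓞 M)) : Prop :=
  ∃ g : M ≃ₐ[K] M, ∀ y : M, w.valuation M (g y) = v.valuation M y

/-- The decomposition group of `w` in `Gal(M/K)` is trivial. -/
def FreeP (K : Type) {M : Type} [Field K] [Field M] [NumberField M] [Algebra K M]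
    (w : HeightOneSpectrum (𝓞 M)) : Prop :=
  ∀ g : M ≃ₐ[K] M, (∀ y : M, w.valuation M (g y) = w.valuation M y) → g = 1

/-- The ideal `δ^j(I)`. -/
noncomputable def cj (δ : M ≃ₐ[K] M) (j : ℕ) (I : Ideal (𝓞 M)) : Ideal (𝓞 M) :=
  I.map (RingOfIntegers.mapRingHom ((δ ^ j : M ≃ₐ[K] M) : M →+* M))

end primes

/-- The prime `W` of `M₁` is above the prime `w` of `M`. -/
def Above {M M₁ : Type} [Field M] [NumberField M] [Field M₁] [NumberField M₁] [Algebra M M₁]
    (W : HeightOneSpectrum (𝓞 M₁)) (w : HeightOneSpectrum (𝓞 M)) : Prop :=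
  W.asIdeal.comap (algebraMap (𝓞 M) (𝓞 M₁)) = w.asIdeal

/-- `ψ` is an additive ray class character modulo the ideal `𝔪` with values in `ZMod p` (no condition
at the infinite places; the values at the ideals not prime to `𝔪` are irrelevant), not trivial. -/
structure IsPsi (p : ℕ) {F : Type} [Field F] [NumberField F] (𝔪 : Ideal (𝓞 F))
    (ψ : Ideal (𝓞 F) → ZMod p) : Prop where
  ne : 𝔪 ≠ ⊥
  mul : ∀ I J, I ≠ ⊥ → J ≠ ⊥ → I ⊔ 𝔪 = ⊤ → J ⊔ 𝔪 = ⊤ → ψ (I * J) = ψ I + ψ J
  ray : ∀ α : 𝓞 F, α ≠ 0 → α - 1 ∈ 𝔪 → ψ (Ideal.span {α}) = 0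
  nontriv : ∃ I, I ≠ ⊥ ∧ I ⊔ 𝔪 = ⊤ ∧ ψ I ≠ 0

/-- `P` is the reduction modulo `p` of the minimal polynomial `Φ` over `ℤ_p` of the primitive `m`-th
root of unity `ζ` of `k`, where `m > 1` is prime to `p`. -/
structure PhiData (p : ℕ) [Fact p.Prime] {k : Type} [NormedField k] [NormedAlgebra ℚ_[p] k]
    (m : ℕ) (ζ : k) (Φ : ℤ_[p][X]) (P : (ZMod p)[X]) : Prop where
  copm : m.Coprime p
  one_lt : 1 < m
  prim : IsPrimitiveRoot ζ m
  monic : Φ.Monic
  dvd : Φ ∣ X ^ m - 1
  root : eval₂ ((algebraMap ℚ_[p] k).comp (algebraMap ℤ_[p] ℚ_[p])) ζ Φ = 0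
  map : P = Φ.map PadicInt.toZMod
  irr : Irreducible P
  deg : p = 2 → 2 ≤ P.natDegree
  cop : ∀ e : ℕ, 0 < e → e < m → e ∣ m → IsCoprime P (X ^ e - 1)
  dvdP : P ∣ X ^ m - 1

/-- The automorphism `δ` acts on the roots of unity of `p`-power order of `H` as the `i`-th power,
for an integer `i` with `P(i) ≠ 0` (so these roots of unity have no `P`-part). -/
def TorOK {p : ℕ} {K H : Type} [Field K] [Field H] [Algebra K H] (P : (ZMod p)[X])
    (δ : H ≃ₐ[K] H) : Prop :=
  ∃ i : ℕ, P.eval (i : ZMod p) ≠ 0 ∧ ∀ (ξ : H) (n : ℕ), ξ ^ p ^ n = 1 → δ ξ = ξ ^ i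

/-- `a` is of type `ω`: every automorphism `τ` of `M₁/K` acts on the class of `a` modulo `p`-th
powers in the same way as on the `p`-th roots of unity. -/
def OmType (p : ℕ) (K : Type) {M₁ : Type} [Field K] [Field M₁] [Algebra K M₁] (ε a : M₁) : Prop :=
  ∀ τ : M₁ ≃ₐ[K] M₁, ∃ (n : ℕ) (c : M₁), τ ε = ε ^ n ∧ τ a = a ^ n * c ^ p

/-- A system of local conditions at the finite set `S` of primes of `M`: homomorphisms
`v(·, w) : Mˣ → ZMod p` for `w ∈ S`, compatible with `δ`, independent, with an approximation property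
at the places of `T`, and trivial on the elements congruent to `1` modulo `𝔪₀`. -/
structure LSys {p : ℕ} {k : Type} [NormedField k] {K M : Type} [Field K]
    [Field M] [NumberField M] [Algebra K M] (δ : M ≃ₐ[K] M) (T : Set (K →+* k))
    (S : Set (HeightOneSpectrum (𝓞 M))) (𝔪₀ : Ideal (𝓞 M))
    (v : Mˣ → HeightOneSpectrum (𝓞 M) → ZMod p) : Prop where
  fin : S.Finite
  stable : ∀ w ∈ S, ∀ w', ConjP K w' w → w' ∈ S
  abp : ∀ w : HeightOneSpectrum (𝓞 M), w.valuation M p < 1 → w ∈ S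
  add : ∀ x y, ∀ w ∈ S, v (x * y) w = v x w + v y w
  equiv : ∀ x, ∀ w ∈ S, ∀ w', (∀ y : M, w.valuation M (δ y) = w'.valuation M y) →
    v (Units.map ((δ : M →+* M) : M →* M) x) w = v x w'
  surj : ∀ c : HeightOneSpectrum (𝓞 M) → ZMod p, ∃ x, ∀ w ∈ S, v x w = c w
  approx : ∀ x : Mˣ, (∀ τ ∈ (above T : Set (M →+* k)), ‖τ (x : M)‖ = 1) →
    ∃ x' : Mˣ, (∀ w ∈ S, v x' w = 0) ∧
      ∀ τ ∈ (above T : Set (M →+* k)), ‖τ ((x' / x : Mˣ) : M) - 1‖ ≤ (1 / p : ℝ) ^ 3
  ne : 𝔪₀ ≠ ⊥
  supp : ∀ w : HeightOneSpectrum (𝓞 M), w.asIdeal ⊔ 𝔪₀ ≠ ⊤ → w ∈ S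
  ray : ∀ (α : 𝓞 M) (x : Mˣ), (x : M) = α → α - 1 ∈ 𝔪₀ → ∀ w ∈ S, v x w = 0

/-- The local conditions of the system `v` at `S` and at the places of `T`. -/
def LSat {p : ℕ} {k : Type} [NormedField k] {M : Type} [Field M] [NumberField M]
    (L : IwasawaLog p k) (T : Set (M →+* k)) (S : Set (HeightOneSpectrum (𝓞 M)))
    (v : Mˣ → HeightOneSpectrum (𝓞 M) → ZMod p) (x : Mˣ) : Prop :=
  (∀ w ∈ S, v x w = 0) ∧ LocSig L T x

end Pool.Agent.Helper51.RP
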