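import Pool.Agent.Helper43.RP.Goals
import Mathlib

/-!
# Packet RP-CELL (MP_f5847d_nt): pigeonhole
-/

set_option autoImplicit false

namespace Pool.Agent.Helper51.RP.CELL

open Classical in
theorem t : Pool.Agent.Helper43.RP.CELL := by
  intro α _ U S F δ N hδ hU h
  set cls : α → (∀ p ∈ S, ℕ) := fun a p _ => ⌊F p a / δ⌋₊ with hcls
  set T : Finset (∀ p ∈ S, ℕ) := Finset.pi S (fun _ => Finset.range N) with hT
  have hTcard : T.card = N ^ S.card := by
    rw [hT, Finset.card_pi]
    simp
  have hmaps : ∀ a ∈ U, cls a ∈ T := by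
    intro a ha
    rw [hT, Finset.mem_pi]
    intro p hp
    rw [Finset.mem_range]
    have h1 := h p hp a ha
    refine (Nat.floor_lt (div_nonneg h1.1 hδ.le)).2 ?_
    rw [div_lt_iff₀ hδ]
    exact h1.2
  obtain ⟨a0, ha0⟩ := hU
  have hTne : T.Nonempty := ⟨cls a0, hmaps a0 ha0⟩
  obtain ⟨y, hy, hmax⟩ := Finset.exists_max_image T
    (fun y => (U.filter (fun a => cls a = y)).card) hTne
  have hsum : U.card = ∑ y ∈ T, (U.filter (fun a => cls a = y)).card :=
    Finset.card_eq_sum_card_fiberwise (f := cls) (fun a ha => hmaps a ha)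
  have hle : U.card ≤ (U.filter (fun a => cls a = y)).card * N ^ S.card := by
    rw [hsum]
    calc ∑ z ∈ T, (U.filter (fun a => cls a = z)).card
        ≤ ∑ _z ∈ T, (U.filter (fun a => cls a = y)).card :=
          Finset.sum_le_sum (fun z hz => hmax z hz)
      _ = (U.filter (fun a => cls a = y)).card * N ^ S.card := by
          rw [Finset.sum_const, smul_eq_mul, hTcard, mul_comm]
  refine ⟨U.filter (fun a => cls a = y), Finset.filter_subset _ _, ?_, hle, ?_⟩
  · rw [← Finset.card_pos]
    by_contra hc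
    have h0 : (U.filter (fun a => cls a = y)).card = 0 := by omega
    rw [h0, zero_mul] at hle
    have hpos : 0 < U.card := Finset.card_pos.2 ⟨a0, ha0⟩
    omega
  · intro p hp a ha b hb
    rw [Finset.mem_filter] at ha hb
    have hab : cls a = cls b := ha.2.trans hb.2.symm
    have hf : ⌊F p a / δ⌋₊ = ⌊F p b / δ⌋₊ := congrFun (congrFun hab p) hp
    have h1 : F p a / δ < (⌊F p a / δ⌋₊ : ℝ) + 1 := Nat.lt_floor_add_one _
    have h2 : (⌊F p b / δ⌋₊ : ℝ) ≤ F p b / δ :=
      Nat.floor_le (div_nonneg (h p hp b hb.1).1 hδ.le)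
    rw [hf] at h1
    have h3 : F p a / δ < F p b / δ + 1 := by linarith
    have h4 : F p a < (F p b / δ + 1) * δ := (div_lt_iff₀ hδ).1 h3
    have h5 : (F p b / δ + 1) * δ = F p b + δ := by
      field_simp
    linarith

end Pool.Agent.Helper51.RP.CELL
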