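import Pool.Agent.Helper43.RP.Goals
import Mathlib

/-!
# Packet RP-CLB (MP_f5847d_nt): lattice points in a sheared simplex, inside the box
-/

set_option autoImplicit false

namespace Pool.Agent.Helper51.RP.CLB

open Pool.Agent.Helper43.RP Pool.Agent.Helper50.FE

theorem up_next {m : ℕ} (y : Fin m → ℝ) {i j : Fin m} (h : (j : ℕ) = i + 1) :
    up y i = y i + up y j := by
  classical
  unfold up
  have h1 : Finset.univ.filter (fun k : Fin m => i ≤ k) =
      insert i (Finset.univ.filter (fun k : Fin m => j ≤ k)) := by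
    ext k
    simp only [Finset.mem_filter, Finset.mem_univ, true_and, Finset.mem_insert, Fin.le_def,
      Fin.ext_iff]
    omega
  rw [h1, Finset.sum_insert]
  simp only [Finset.mem_filter, Finset.mem_univ, true_and, Fin.le_def]
  omega

theorem up_last {m : ℕ} (y : Fin m → ℝ) {i : Fin m} (h : (i : ℕ) + 1 = m) :
    up y i = y i := by
  classical
  unfold up
  have h1 : Finset.univ.filter (fun k : Fin m => i ≤ k) = {i} := by
    ext k
    have := k.2
    simp only [Finset.mem_filter, Finset.mem_univ, true_and, Finset.mem_singleton, Fin.le_def,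
      Fin.ext_iff]
    omega
  rw [h1, Finset.sum_singleton]

theorem t (h : Pool.Agent.Helper43.RP.CLZ) : Pool.Agent.Helper43.RP.CLB := by
  classical
  intro m n w r s Δ hn hw h1 h2 h3
  obtain ⟨V, hV1, hV2⟩ := h m n w 0 Δ hn hw h1
  simp only [zero_add] at hV1
  -- the bounds
  have hb : ∀ d ∈ V, ∀ i, 0 ≤ (s i : ℤ) + d i ∧ (s i : ℤ) + d i ≤ r i := by
    intro d hd i
    obtain ⟨hd1, hd2⟩ := hV1 d hd
    have hsingle : ∀ j, w j * up (fun j => (d j : ℝ) * n j) j ≤ Δ := by
      intro j
      refine le_trans ?_ hd2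
      exact Finset.single_le_sum (f := fun j => w j * up (fun j => (d j : ℝ) * n j) j)
        (fun k _ => mul_nonneg (hw k).le (hd1 k)) (Finset.mem_univ j)
    have hup : up (fun j => (d j : ℝ) * n j) i ≤ n i * ((r i : ℝ) - s i) := by
      have h4 := (hsingle i).trans (h2 i)
      rw [mul_assoc] at h4
      exact le_of_mul_le_mul_left h4 (hw i)
    have hni := hn i
    rcases Nat.lt_or_ge ((i : ℕ) + 1) m with hi | hi
    · set j : Fin m := ⟨(i : ℕ) + 1, hi⟩ with hj
      have hij : (j : ℕ) = i + 1 := rfl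
      have h5 := up_next (fun j => (d j : ℝ) * n j) hij
      have h6 := hd1 j
      have h7 : up (fun j => (d j : ℝ) * n j) j ≤ n i * (s i : ℝ) := by
        have h8 := (hsingle j).trans (h3 i j hij)
        rw [mul_assoc] at h8
        exact le_of_mul_le_mul_left h8 (hw j)
      have h9 := hd1 i
      constructor
      · have h10 : n i * (-(s i : ℝ)) ≤ n i * (d i : ℝ) := by
          linarith
        have h12 : (-(s i : ℝ)) ≤ (d i : ℝ) := le_of_mul_le_mul_left h10 hni
        have h13 : (-(s i : ℤ)) ≤ d i := by exact_mod_cast h12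
        omega
      · have h10 : n i * (d i : ℝ) ≤ n i * ((r i : ℝ) - s i) := by
          linarith
        have h12 : (d i : ℝ) ≤ (r i : ℝ) - s i := le_of_mul_le_mul_left h10 hni
        have h13 : (s i : ℤ) + d i ≤ r i := by
          have h14 : (s i : ℝ) + d i ≤ r i := by linarith
          exact_mod_cast h14
        exact h13
    · have hi' : (i : ℕ) + 1 = m := by have := i.2; omega
      have h5 := up_last (fun j => (d j : ℝ) * n j) hi'
      have h9 := hd1 i
      rw [h5] at h9 hup
      have h9' : 0 ≤ (d i : ℝ) * n i := h9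
      have hup' : (d i : ℝ) * n i ≤ n i * ((r i : ℝ) - s i) := hup
      constructor
      · have h10 : (0 : ℝ) ≤ d i := nonneg_of_mul_nonneg_left h9' hni
        have h11 : (0 : ℤ) ≤ d i := by exact_mod_cast h10
        omega
      · have h10 : n i * (d i : ℝ) ≤ n i * ((r i : ℝ) - s i) := by linarith
        have h12 : (d i : ℝ) ≤ (r i : ℝ) - s i := le_of_mul_le_mul_left h10 hni
        have h14 : (s i : ℝ) + d i ≤ r i := by linarith
        exact_mod_cast h14
  set f : (Fin m → ℤ) → (Fin m → ℕ) := fun d i => ((s i : ℤ) + d i).toNat with hf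
  have hfi : ∀ d ∈ V, ∀ i, ((f d i : ℕ) : ℤ) = (s i : ℤ) + d i := fun d hd i =>
    Int.toNat_of_nonneg (hb d hd i).1
  have hfr : ∀ d ∈ V, ∀ i, ((f d i : ℕ) : ℝ) - s i = d i := by
    intro d hd i
    have h4 := hfi d hd i
    have h5 : ((f d i : ℕ) : ℝ) = (s i : ℝ) + d i := by exact_mod_cast h4
    rw [h5]
    ring
  have hinj : Set.InjOn f (V : Set (Fin m → ℤ)) := by
    intro d hd d' hd' he
    funext i
    have h4 := hfi d hd i
    have h5 := hfi d' hd' i
    have h6 := congrFun he i
    rw [h6] at h4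
    omega
  refine ⟨V.image f, ?_, ?_, ?_⟩
  · intro a ha
    rw [Finset.mem_image] at ha
    obtain ⟨d, hd, rfl⟩ := ha
    unfold box
    rw [Fintype.mem_piFinset]
    intro i
    rw [Finset.mem_range]
    have h4 := hfi d hd i
    have h5 := (hb d hd i).2
    omega
  · intro a ha
    rw [Finset.mem_image] at ha
    obtain ⟨d, hd, rfl⟩ := ha
    have h4 : (fun j => (((f d j : ℕ) : ℝ) - s j) * n j) = fun j => (d j : ℝ) * n j := by
      funext j
      rw [hfr d hd j]
    rw [h4]
    exact hV1 d hd
  · rw [Finset.card_image_of_injOn hinj]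
    exact hV2

end Pool.Agent.Helper51.RP.CLB
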